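import Mathlib

/-!
# Degree sequences and induced subgraphs: the class `P(G)` and the set `D(G)`

The definitions behind problem MP_a83c81_co.
-/

set_option autoImplicit false

namespace Pool.Agent.H64.Dsf

/-- The degree sequence of a graph on `Fin n`, as the multiset of its vertex degrees. (The
non-increasing list of the degrees and this multiset determine each other.) -/
noncomputable def degSeq {n : ℕ} (H : SimpleGraph (Fin n)) : Multiset ℕ :=
  Finset.univ.val.map fun v => (H.neighborSet v).ncard

/-- `H` induces `G`: some induced subgraph of `H` is isomorphic to `G`. -/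
def Induces {m n : ℕ} (H : SimpleGraph (Fin n)) (G : SimpleGraph (Fin m)) : Prop :=
  Nonempty (G ↪g H)

/-- `H` lies in the class `P(G)`: some graph with the same degree sequence as `H` induces `G`. -/
def InP {g n : ℕ} (G : SimpleGraph (Fin g)) (H : SimpleGraph (Fin n)) : Prop :=
  ∃ (m : ℕ) (H' : SimpleGraph (Fin m)), degSeq H' = degSeq H ∧ Induces H' G

/-- `H` lies in `D(G)`: `H` is in `P(G)` and no proper induced subgraph of `H` is in `P(G)`. -/
def InD {g n : ℕ} (G : SimpleGraph (Fin g)) (H : SimpleGraph (Fin n)) : Prop :=
  InP G H ∧ ∀ (m : ℕ) (K : SimpleGraph (Fin m)), m < n → Induces H K → ¬ InP G K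

end Pool.Agent.H64.Dsf
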