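import Pool.Agent.H64.DsfDefs

/-!
# A graph `G` with nine vertices for which `D(G)` is infinite
-/

set_option autoImplicit false

namespace Pool.Agent.H64.Dsf

open SimpleGraph

/-! ### Bad pairs across a cut -/

section Cut

variable {W : Type} [Fintype W] [DecidableEq W]

/-- Ordered pairs violating the pattern of a cut. The colour `0` is the clique side, the colour `1`
the independent side, and the colour `2` is the rest. -/
def bad (T : SimpleGraph W) [DecidableRel T.Adj] (cl : W → Fin 3) : Finset (W × W) :=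
  Finset.univ.filter fun p =>
    (cl p.1 = 0 ∧ cl p.2 ≠ 1 ∧ p.2 ≠ p.1 ∧ ¬ T.Adj p.1 p.2) ∨
    (cl p.1 = 1 ∧ cl p.2 ≠ 0 ∧ T.Adj p.1 p.2)

lemma card_bad_add (T : SimpleGraph W) [DecidableRel T.Adj] (cl : W → Fin 3) :
    (bad T cl).card + ∑ u ∈ Finset.univ.filter (fun u => cl u = 0), T.degree u =
      ∑ u ∈ Finset.univ.filter (fun u => cl u = 0),
        (Finset.univ.filter fun v => v ≠ u ∧ cl v ≠ 1).card +
      ∑ u ∈ Finset.univ.filter (fun u => cl u = 1), T.degree u := by
  classical
  -- bad pairs, sorted by their first entry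
  have h1 : (bad T cl).card =
      ∑ u ∈ Finset.univ.filter (fun u => cl u = 0),
        (Finset.univ.filter fun v => v ≠ u ∧ cl v ≠ 1 ∧ ¬ T.Adj u v).card +
      ∑ u ∈ Finset.univ.filter (fun u => cl u = 1),
        (Finset.univ.filter fun v => cl v ≠ 0 ∧ T.Adj u v).card := by
    unfold bad
    rw [Finset.card_filter, ← Finset.univ_product_univ, Finset.sum_product,
      Finset.sum_filter, Finset.sum_filter, ← Finset.sum_add_distrib]
    apply Finset.sum_congr rfl
    intro u _
    by_cases h0 : cl u = 0
    · simp only [h0, true_and, if_true, Fin.isValue, zero_ne_one, false_and, or_false, if_false,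
        add_zero, Finset.card_filter]
      apply Finset.sum_congr rfl
      intro v _
      congr 1
      apply propext
      tauto
    · by_cases h1 : cl u = 1
      · simp only [h1, Fin.isValue, one_ne_zero, false_and, false_or, true_and, if_false, if_true,
          zero_add, Finset.card_filter]
      · simp [h0, h1]
  -- edges between the two sides, counted from both sides
  have h2 : ∑ u ∈ Finset.univ.filter (fun u => cl u = 0),
        (Finset.univ.filter fun v => cl v = 1 ∧ T.Adj u v).card =
      ∑ u ∈ Finset.univ.filter (fun u => cl u = 1),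
        (Finset.univ.filter fun v => cl v = 0 ∧ T.Adj u v).card := by
    simp only [Finset.card_filter, Finset.sum_filter]
    have : ∀ a b : Fin 3, ∑ u : W, (if cl u = a then ∑ v : W,
        (if cl v = b ∧ T.Adj u v then 1 else 0) else 0) =
        ∑ u : W, ∑ v : W, (if cl u = a ∧ cl v = b ∧ T.Adj u v then 1 else 0) := by
      intro a b
      apply Finset.sum_congr rfl
      intro u _
      by_cases h : cl u = a <;> simp [h]
    rw [this, this, Finset.sum_comm]
    apply Finset.sum_congr rfl
    intro u _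
    apply Finset.sum_congr rfl
    intro v _
    congr 1
    apply propext
    rw [T.adj_comm]
    tauto
  have h3 : ∀ u, T.degree u + (Finset.univ.filter fun v => v ≠ u ∧ cl v ≠ 1 ∧ ¬ T.Adj u v).card =
      (Finset.univ.filter fun v => v ≠ u ∧ cl v ≠ 1).card +
      (Finset.univ.filter fun v => cl v = 1 ∧ T.Adj u v).card := by
    intro u
    rw [← T.card_neighborFinset_eq_degree, ← Finset.card_union_of_disjoint,
      ← Finset.card_union_of_disjoint]
    · congr 1
      ext v
      simp only [Finset.mem_union, mem_neighborFinset, Finset.mem_filter, Finset.mem_univ,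
        true_and]
      have : T.Adj u v → v ≠ u := fun h h' => by subst h'; exact T.loopless.irrefl _ h
      tauto
    · rw [Finset.disjoint_left]
      intro v
      simp only [Finset.mem_filter, Finset.mem_univ, true_and]
      tauto
    · rw [Finset.disjoint_left]
      intro v
      simp only [mem_neighborFinset, Finset.mem_filter, Finset.mem_univ, true_and]
      tauto
  have h4 : ∀ u, T.degree u = (Finset.univ.filter fun v => cl v ≠ 0 ∧ T.Adj u v).card +
      (Finset.univ.filter fun v => cl v = 0 ∧ T.Adj u v).card := by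
    intro u
    rw [← T.card_neighborFinset_eq_degree, ← Finset.card_union_of_disjoint]
    · congr 1
      ext v
      simp only [Finset.mem_union, mem_neighborFinset, Finset.mem_filter, Finset.mem_univ,
        true_and]
      tauto
    · rw [Finset.disjoint_left]
      intro v
      simp only [Finset.mem_filter, Finset.mem_univ, true_and]
      tauto
  have h5 := Finset.sum_congr (rfl : Finset.univ.filter (fun u => cl u = 0) = _) fun u _ => h3 u
  have h6 := Finset.sum_congr (rfl : Finset.univ.filter (fun u => cl u = 1) = _) fun u _ => h4 u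
  rw [Finset.sum_add_distrib, Finset.sum_add_distrib] at h5
  rw [Finset.sum_add_distrib] at h6
  omega

lemma card_bad_eq (T K : SimpleGraph W) [DecidableRel T.Adj] [DecidableRel K.Adj]
    (h : ∀ v, T.degree v = K.degree v) (cl : W → Fin 3) :
    (bad T cl).card = (bad K cl).card := by
  have h1 := card_bad_add T cl
  have h2 := card_bad_add K cl
  simp only [h] at h1
  omega

lemma card_bad_le {U : Type} [Fintype U] [DecidableEq U] (G : SimpleGraph U)
    [DecidableRel G.Adj] (T : SimpleGraph W) [DecidableRel T.Adj] (φ : G ↪g T) (cl : W → Fin 3) :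
    (bad G (fun u => cl (φ u))).card ≤ (bad T cl).card := by
  apply Finset.card_le_card_of_injOn (fun p => (φ p.1, φ p.2))
  · intro p hp
    simp only [bad, Finset.coe_filter, Finset.mem_univ, true_and, Set.mem_ofPred_eq] at hp ⊢
    rw [φ.map_adj_iff, φ.injective.ne_iff]
    exact hp
  · intro p _ q _ h
    simp only [Prod.mk.injEq, φ.injective.eq_iff] at h
    exact Prod.ext h.1 h.2

end Cut

/-! ### The graph `G` -/

/-- Edge table of `G` (nine vertices, thirteen edges): `0 = x`, `1 = x'`, leaves `2, 3` at `0`, leaf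
`4` at `1`, the edges `5 6` and `7 8` (with `5 = y`), both `0` and `1` joined to `5, 6, 7, 8` except
that `0 5` is missing. -/
def gT (i j : ℕ) : Bool :=
  [(0,1),(0,2),(0,3),(1,4),(5,6),(7,8),(0,6),(0,7),(0,8),(1,5),(1,6),(1,7),(1,8)].contains (i, j)

/-- The graph `G`. -/
def G₀ : SimpleGraph (Fin 9) where
  Adj i j := gT i j = true ∨ gT j i = true
  symm := ⟨fun _ _ h => h.symm⟩
  loopless := ⟨fun i => by revert i; decide⟩

instance : DecidableRel G₀.Adj := fun i j =>
  inferInstanceAs (Decidable (gT i j = true ∨ gT j i = true))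

/-- `G` has no non-trivial cut without bad pairs. -/
lemma G₀_no_cut (cl : Fin 9 → Fin 3) (h : (bad G₀ cl).card = 0) (u : Fin 9) : cl u = 2 := by
  rw [Finset.card_eq_zero, bad, Finset.filter_eq_empty_iff] at h
  simp only [Finset.mem_univ, not_or, not_and, not_not, true_implies, Prod.forall] at h
  have hE : ∀ u v, cl u = 0 → v ≠ u → ¬ G₀.Adj u v → cl v = 1 := by
    intro u v h0 hne hadj
    by_contra hcon
    exact hadj ((h u v).1 h0 hcon hne)
  have hO : ∀ u v, cl u = 1 → G₀.Adj u v → cl v = 0 := by
    intro u v h1 hadj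
    by_contra hcon
    exact (h u v).2 h1 hcon hadj
  -- the vertex `0` is not on the clique side
  have n0 : cl 0 ≠ 0 := by
    intro h0
    have h5 := hE 0 5 h0 (by decide) (by decide)
    have h6 := hO 5 6 h5 (by decide)
    have h7 := hE 6 7 h6 (by decide) (by decide)
    have h8 := hE 6 8 h6 (by decide) (by decide)
    have h8' := hO 7 8 h7 (by decide)
    rw [h8] at h8'
    exact absurd h8' (by decide)
  have n1 : cl 1 ≠ 0 := by
    intro h1
    exact n0 (hO 2 0 (hE 1 2 h1 (by decide) (by decide)) (by decide))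
  have hadj : ∀ u : Fin 9, G₀.Adj u 0 ∨ G₀.Adj u 1 := by decide
  have nO : ∀ u, cl u ≠ 1 := by
    intro u hu
    rcases hadj u with h | h
    · exact n0 (hO u 0 hu h)
    · exact n1 (hO u 1 hu h)
  have hnon : ∀ u : Fin 9, ∃ v, v ≠ u ∧ ¬ G₀.Adj u v := by decide
  have nE : cl u ≠ 0 := by
    intro hu
    obtain ⟨v, hv, hadj⟩ := hnon u
    exact nO v (hE u v hu hv hadj)
  have := nO u
  omega

/-- Two vertices of `G` always cause at least two bad pairs. -/
lemma G₀_two (cl : Fin 9 → Fin 3) (h : (Finset.univ.filter fun u => cl u ≠ 2).card = 2) :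
    2 ≤ (bad G₀ cl).card := by
  have key : ∀ u v : Fin 9, u ≠ v → ∀ a b : Fin 2,
      2 ≤ (bad G₀ (fun w => if w = u then a.castSucc else if w = v then b.castSucc else 2)).card := by
    decide +kernel
  obtain ⟨u, v, huv, hset⟩ := Finset.card_eq_two.1 h
  have hu : cl u ≠ 2 := by
    have : u ∈ Finset.univ.filter fun u => cl u ≠ 2 := by rw [hset]; simp
    simpa using this
  have hv : cl v ≠ 2 := by
    have : v ∈ Finset.univ.filter fun u => cl u ≠ 2 := by rw [hset]; simp
    simpa using this
  have hw : ∀ w, w ≠ u → w ≠ v → cl w = 2 := by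
    intro w h1 h2
    by_contra hcon
    have : w ∈ Finset.univ.filter fun u => cl u ≠ 2 := by simpa using hcon
    rw [hset] at this
    simp only [Finset.mem_insert, Finset.mem_singleton] at this
    tauto
  have hu2 : (cl u : ℕ) < 2 := by omega
  have hv2 : (cl v : ℕ) < 2 := by omega
  have := key u v huv ⟨cl u, hu2⟩ ⟨cl v, hv2⟩
  convert this using 3
  ext w
  by_cases h1 : w = u
  · simp [h1]
  · by_cases h2 : w = v
    · simp [h2, huv.symm]
    · simp [h1, h2, hw w h1 h2]

/-! ### The family `H L` -/

/-- Position in the composition: `0` for the first five vertices, `L + 1` for the next four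
(the two disjoint edges), and `j` for the `j`-th chain vertex (numbered `8 + j`). -/
def pos (L i : ℕ) : ℕ := if i < 5 then 0 else if i < 9 then L + 1 else i - 8

/-- Type: `0` for dominating vertices, `1` for dominated ones, `2` for the two disjoint edges. -/
def typ (i : ℕ) : Fin 3 :=
  if i < 2 then 0 else if i < 5 then 1 else if i < 9 then 2 else if i % 2 = 0 then 0 else 1

/-- Adjacency in the composition of the five-vertex graph, the chain, and the two edges. -/
def theta (L i j : ℕ) : Prop :=
  (pos L i < pos L j ∧ typ i = 0) ∨ (pos L j < pos L i ∧ typ j = 0) ∨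
    (pos L i = pos L j ∧ (gT i j = true ∨ gT j i = true))

/-- Consecutive vertices of the alternating path from `x = 0` through the chain to `y = 5`. -/
def step (L i j : ℕ) : Prop :=
  (i = 0 ∧ j = 9) ∨ (9 ≤ i ∧ j = i + 1 ∧ i < 8 + L) ∨ (i = 8 + L ∧ j = 5)

lemma gT_lt {i j : ℕ} (h : gT i j = true) : i < j ∧ j < 9 := by
  simp [gT] at h
  omega

lemma theta_symm {L i j : ℕ} (h : theta L i j) : theta L j i := by
  rcases h with h | h | h
  · right; left; exact h
  · left; exact h
  · right; right; exact ⟨h.1.symm, h.2.symm⟩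

lemma theta_irrefl (L i : ℕ) : ¬ theta L i i := by
  rintro (h | h | h)
  · exact absurd h.1 (lt_irrefl _)
  · exact absurd h.1 (lt_irrefl _)
  · rcases h.2 with h | h
    · exact absurd (gT_lt h).1 (lt_irrefl _)
    · exact absurd (gT_lt h).1 (lt_irrefl _)

lemma theta_of_lt {L i j : ℕ} (h : pos L i < pos L j) : theta L i j ↔ typ i = 0 := by
  constructor
  · rintro (h' | h' | h')
    · exact h'.2
    · omega
    · omega
  · intro h'
    exact Or.inl ⟨h, h'⟩

lemma typ_zero (i : ℕ) : typ i = 0 ↔ i < 2 ∨ (9 ≤ i ∧ i % 2 = 0) := by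
  unfold typ
  split_ifs <;> simp <;> omega

lemma typ_one (i : ℕ) : typ i = 1 ↔ (2 ≤ i ∧ i < 5) ∨ (9 ≤ i ∧ i % 2 = 1) := by
  unfold typ
  split_ifs <;> simp <;> omega

lemma typ_two (i : ℕ) : typ i = 2 ↔ (5 ≤ i ∧ i < 9) := by
  unfold typ
  split_ifs <;> simp <;> omega

/-- The realization containing `G`. -/
def H' (L : ℕ) : SimpleGraph (Fin (9 + L)) where
  Adj i j := theta L i j ∧ ¬ ((i : ℕ) = 0 ∧ (j : ℕ) = 5) ∧ ¬ ((i : ℕ) = 5 ∧ (j : ℕ) = 0)
  symm := ⟨fun _ _ ⟨h, h1, h2⟩ => ⟨theta_symm h, fun h => h2 h.symm, fun h => h1 h.symm⟩⟩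
  loopless := ⟨fun i h => theta_irrefl L i h.1⟩

/-- The graph with the missing edge pushed along the chain. -/
def H (L : ℕ) : SimpleGraph (Fin (9 + L)) where
  Adj i j := i ≠ j ∧ ((theta L i j ∧ ¬ step L i j ∧ ¬ step L j i) ∨
    (¬ theta L i j ∧ (step L i j ∨ step L j i)))
  symm := ⟨by
    rintro i j ⟨hne, h⟩
    refine ⟨hne.symm, ?_⟩
    rcases h with h | h
    · left; exact ⟨theta_symm h.1, h.2.2, h.2.1⟩
    · right; exact ⟨fun h' => h.1 (theta_symm h'), h.2.symm⟩⟩
  loopless := ⟨fun i h => h.1 rfl⟩

/-- Degrees agree. -/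
lemma ncard_eq (L : ℕ) (hL2 : L % 2 = 0) (hLp : 0 < L) (v : Fin (9 + L)) :
    ((H L).neighborSet v).ncard = ((H' L).neighborSet v).ncard := by
  -- it is enough to exhibit a permutation moving one neighbourhood to the other
  have red : ∀ σ : Equiv.Perm (Fin (9 + L)), (∀ u, (H L).Adj v (σ u) ↔ (H' L).Adj v u) →
      ((H L).neighborSet v).ncard = ((H' L).neighborSet v).ncard := by
    intro σ hσ
    have : (H L).neighborSet v = σ '' (H' L).neighborSet v := by
      ext u
      constructor
      · intro hu
        refine ⟨σ.symm u, ?_, by simp⟩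
        rw [mem_neighborSet, ← hσ]
        simpa using hu
      · rintro ⟨w, hw, rfl⟩
        exact (hσ w).2 hw
    rw [this, Set.ncard_image_of_injective _ σ.injective]
  have hv := v.2
  have hother : ∀ u : Fin (9 + L), ¬ step L v u → ¬ step L u v →
      ¬ ((v : ℕ) = 0 ∧ (u : ℕ) = 5) → ¬ ((v : ℕ) = 5 ∧ (u : ℕ) = 0) →
      ((H L).Adj v u ↔ (H' L).Adj v u) := by
    intro u h1 h2 h3 h4
    constructor
    · rintro ⟨_, h | h⟩
      · exact ⟨h.1, h3, h4⟩
      · exact absurd h.2 (by tauto)
    · rintro ⟨h, _, _⟩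
      refine ⟨?_, Or.inl ⟨h, h1, h2⟩⟩
      rintro rfl
      exact theta_irrefl _ _ h
  -- a swap works
  have hswap : ∀ a b : Fin (9 + L), a ≠ b → ((H L).Adj v b ↔ (H' L).Adj v a) →
      ((H L).Adj v a ↔ (H' L).Adj v b) →
      (∀ u, u ≠ a → u ≠ b → ((H L).Adj v u ↔ (H' L).Adj v u)) →
      ((H L).neighborSet v).ncard = ((H' L).neighborSet v).ncard := by
    intro a b hab h1 h2 h3
    apply red (Equiv.swap a b)
    intro u
    by_cases ha : u = a
    · rw [ha, Equiv.swap_apply_left]; exact h1
    · by_cases hb : u = b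
      · rw [hb, Equiv.swap_apply_right]; exact h2
      · rw [Equiv.swap_apply_of_ne_of_ne ha hb]; exact h3 u ha hb
  by_cases h0 : (v : ℕ) = 0
  · -- the vertex `x`
    have e9 : (9 : ℕ) < 9 + L := by omega
    have e5 : (5 : ℕ) < 9 + L := by omega
    have t9 : theta L v 9 := (theta_of_lt (by simp [pos, h0])).2 ((typ_zero _).2 (by omega))
    have t5 : theta L v 5 := (theta_of_lt (by simp [pos, h0])).2 ((typ_zero _).2 (by omega))
    apply hswap ⟨9, e9⟩ ⟨5, e5⟩ (by simp)
    · constructor
      · intro _
        exact ⟨t9, by simp, by simp⟩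
      · intro _
        refine ⟨?_, Or.inl ⟨t5, ?_, ?_⟩⟩
        · intro h; rw [h] at h0; simp at h0
        · simp only [step]; omega
        · simp only [step]; omega
    · constructor
      · rintro ⟨_, h | h⟩
        · exact absurd h.2.1 (by simp [step, h0])
        · exact absurd t9 h.1
      · rintro ⟨_, h, _⟩
        exact absurd h (by simp [h0])
    · intro u h1 h2
      have h1' : (u : ℕ) ≠ 9 := fun h => h1 (Fin.ext h)
      have h2' : (u : ℕ) ≠ 5 := fun h => h2 (Fin.ext h)
      apply hother <;> (try simp only [step]) <;> omega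
  · by_cases h5 : (v : ℕ) = 5
    · -- the vertex `y`
      have e8 : 8 + L < 9 + L := by omega
      have e0 : 0 < 9 + L := by omega
      have t8 : theta L (8 + L) v := (theta_of_lt (by
        unfold pos; rw [h5]; simp; split_ifs <;> omega)).2 ((typ_zero _).2 (by omega))
      have t0 : theta L 0 v := (theta_of_lt (by simp [pos, h5])).2 ((typ_zero _).2 (by omega))
      apply hswap ⟨8 + L, e8⟩ ⟨0, e0⟩ (by simp)
      · constructor
        · intro _
          exact ⟨theta_symm t8, by simp [h5], by simp⟩
        · intro _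
          refine ⟨?_, Or.inl ⟨theta_symm t0, ?_, ?_⟩⟩
          · intro h; rw [h] at h5; simp at h5
          · simp only [step]; omega
          · simp only [step]; omega
      · constructor
        · rintro ⟨_, h | h⟩
          · exact absurd h.2.2 (by simp [step, h5])
          · exact absurd (theta_symm t8) h.1
        · rintro ⟨_, _, h⟩
          exact absurd h (by simp [h5])
      · intro u h1 h2
        have h1' : (u : ℕ) ≠ 8 + L := fun h => h1 (Fin.ext h)
        have h2' : (u : ℕ) ≠ 0 := fun h => h2 (Fin.ext h)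
        apply hother <;> (try simp only [step]) <;> omega
    · by_cases h9 : 9 ≤ (v : ℕ)
      · -- a chain vertex; `a` before it, `b` after it
        obtain ⟨a, ha⟩ : ∃ a : ℕ, (((v : ℕ) = 9 ∧ a = 0) ∨ ((v : ℕ) ≠ 9 ∧ a + 1 = v)) := by
          by_cases h : (v : ℕ) = 9
          · exact ⟨0, Or.inl ⟨h, rfl⟩⟩
          · exact ⟨v - 1, Or.inr ⟨h, by omega⟩⟩
        obtain ⟨b, hb⟩ : ∃ b : ℕ, (((v : ℕ) = 8 + L ∧ b = 5) ∨ ((v : ℕ) ≠ 8 + L ∧ b = v + 1)) := by
          by_cases h : (v : ℕ) = 8 + L
          · exact ⟨5, Or.inl ⟨h, rfl⟩⟩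
          · exact ⟨v + 1, Or.inr ⟨h, rfl⟩⟩
        have ea : a < 9 + L := by omega
        have eb : b < 9 + L := by omega
        have pa : pos L a < pos L v := by
          unfold pos; split_ifs <;> omega
        have pb : pos L v < pos L b := by
          unfold pos; split_ifs <;> omega
        have sa : step L a v := by simp only [step]; omega
        have sb : step L v b := by simp only [step]; omega
        have ta : theta L v a ↔ (v : ℕ) % 2 = 1 := by
          rw [show theta L v a ↔ theta L a v from ⟨theta_symm, theta_symm⟩, theta_of_lt pa,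
            typ_zero]
          omega
        have tb : theta L v b ↔ (v : ℕ) % 2 = 0 := by
          rw [theta_of_lt pb, typ_zero]
          omega
        have hHa : (H L).Adj v ⟨a, ea⟩ ↔ ¬ theta L v a := by
          constructor
          · rintro ⟨_, h | h⟩
            · exact absurd sa h.2.2
            · exact h.1
          · intro h
            refine ⟨?_, Or.inr ⟨h, Or.inr sa⟩⟩
            intro h'
            have : (v : ℕ) = a := by rw [h']
            omega
        have hHb : (H L).Adj v ⟨b, eb⟩ ↔ ¬ theta L v b := by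
          constructor
          · rintro ⟨_, h | h⟩
            · exact absurd sb h.2.1
            · exact h.1
          · intro h
            refine ⟨?_, Or.inr ⟨h, Or.inl sb⟩⟩
            intro h'
            have : (v : ℕ) = b := by rw [h']
            omega
        have hH'a : (H' L).Adj v ⟨a, ea⟩ ↔ theta L v a := by
          constructor
          · exact fun h => h.1
          · exact fun h => ⟨h, by omega, by omega⟩
        have hH'b : (H' L).Adj v ⟨b, eb⟩ ↔ theta L v b := by
          constructor
          · exact fun h => h.1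
          · exact fun h => ⟨h, by omega, by omega⟩
        apply hswap ⟨a, ea⟩ ⟨b, eb⟩
        · intro h
          have : a = b := by simpa using h
          omega
        · rw [hHb, hH'a, ta, tb]; omega
        · rw [hHa, hH'b, ta, tb]; omega
        · intro u h1 h2
          have h1' : (u : ℕ) ≠ a := fun h => h1 (Fin.ext h)
          have h2' : (u : ℕ) ≠ b := fun h => h2 (Fin.ext h)
          apply hother <;> (try simp only [step]) <;> omega
      · apply red (Equiv.refl _)
        intro u
        rw [Equiv.refl_apply]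
        apply hother <;> (try simp only [step]) <;> omega

/-! ### `H L` lies in `P(G)` -/

lemma gT_cross : ∀ i j : Fin 9, (i : ℕ) < 5 → 5 ≤ (j : ℕ) →
    (G₀.Adj i j ↔ (typ i = 0 ∧ ¬ ((i : ℕ) = 0 ∧ (j : ℕ) = 5))) := by
  decide

lemma emb (L : ℕ) : Nonempty (G₀ ↪g H' L) := by
  have hpos : ∀ i : Fin 9, pos L i = if (i : ℕ) < 5 then 0 else L + 1 := by
    intro i
    unfold pos
    have := i.2
    split_ifs <;> rfl
  have hcr : ∀ i j : Fin 9, (i : ℕ) < 5 → 5 ≤ (j : ℕ) → (G₀.Adj i j ↔ theta L i j ∧
      ¬ ((i : ℕ) = 0 ∧ (j : ℕ) = 5) ∧ ¬ ((i : ℕ) = 5 ∧ (j : ℕ) = 0)) := by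
    intro i j hi hj
    have hlt : pos L i < pos L j := by
      rw [hpos, hpos, if_pos hi, if_neg (by omega)]; omega
    rw [gT_cross i j hi hj, theta_of_lt hlt]
    constructor
    · rintro ⟨h1, h2⟩; exact ⟨h1, h2, by omega⟩
    · rintro ⟨h1, h2, _⟩; exact ⟨h1, h2⟩
  have hin : ∀ i j : Fin 9, ((i : ℕ) < 5 ↔ (j : ℕ) < 5) → (G₀.Adj i j ↔ theta L i j ∧
      ¬ ((i : ℕ) = 0 ∧ (j : ℕ) = 5) ∧ ¬ ((i : ℕ) = 5 ∧ (j : ℕ) = 0)) := by
    intro i j hij
    have heq : pos L i = pos L j := by
      rw [hpos, hpos]; simp only [hij]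
    constructor
    · intro h
      refine ⟨Or.inr (Or.inr ⟨heq, h⟩), ?_, ?_⟩ <;> omega
    · rintro ⟨h | h | h, _, _⟩
      · omega
      · omega
      · exact h.2
  refine ⟨⟨⟨Fin.castAdd L, Fin.castAdd_injective 9 L⟩, ?_⟩⟩
  intro i j
  change (theta L i j ∧ ¬ ((i : ℕ) = 0 ∧ (j : ℕ) = 5) ∧ ¬ ((i : ℕ) = 5 ∧ (j : ℕ) = 0)) ↔ G₀.Adj i j
  rcases lt_or_ge (i : ℕ) 5 with hi | hi <;> rcases lt_or_ge (j : ℕ) 5 with hj | hj
  · exact (hin i j (by omega)).symm
  · exact (hcr i j hi hj).symm
  · rw [G₀.adj_comm, hcr j i hj hi]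
    constructor
    · rintro ⟨h1, h2, h3⟩; exact ⟨theta_symm h1, by omega, by omega⟩
    · rintro ⟨h1, h2, h3⟩; exact ⟨theta_symm h1, by omega, by omega⟩
  · exact (hin i j (by omega)).symm

lemma inP_H (L : ℕ) (hL2 : L % 2 = 0) (hLp : 0 < L) : InP G₀ (H L) := by
  refine ⟨9 + L, H' L, ?_, emb L⟩
  unfold degSeq
  congr 1
  ext v
  exact (ncard_eq L hL2 hLp v).symm

/-! ### The cuts of `H L` -/

/-- The cut after position `j`. -/
def cut (L j : ℕ) (v : Fin (9 + L)) : Fin 3 := if pos L v ≤ j then typ v else 2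

/-- The `j`-th vertex of the alternating path. -/
def pathv (L j : ℕ) : ℕ := if j = 0 then 0 else if j ≤ L then 8 + j else 5

lemma pos_le_iff {L j v : ℕ} (hj : j ≤ L) :
    pos L v ≤ j ↔ (v < 5 ∨ (9 ≤ v ∧ v ≤ 8 + j)) := by
  unfold pos; split_ifs <;> omega

lemma cut_zero {L j : ℕ} (hj : j ≤ L) (v : Fin (9 + L)) :
    cut L j v = 0 ↔ ((v : ℕ) < 2 ∨ (9 ≤ (v : ℕ) ∧ (v : ℕ) ≤ 8 + j ∧ (v : ℕ) % 2 = 0)) := by
  unfold cut
  by_cases h : pos L v ≤ j
  · rw [if_pos h, typ_zero]
    rw [pos_le_iff hj] at h
    omega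
  · rw [if_neg h]
    rw [pos_le_iff hj] at h
    constructor
    · intro h'; exact absurd h' (by decide)
    · omega

lemma cut_one {L j : ℕ} (hj : j ≤ L) (v : Fin (9 + L)) :
    cut L j v = 1 ↔ ((2 ≤ (v : ℕ) ∧ (v : ℕ) < 5) ∨
      (9 ≤ (v : ℕ) ∧ (v : ℕ) ≤ 8 + j ∧ (v : ℕ) % 2 = 1)) := by
  unfold cut
  by_cases h : pos L v ≤ j
  · rw [if_pos h, typ_one]
    rw [pos_le_iff hj] at h
    omega
  · rw [if_neg h]
    rw [pos_le_iff hj] at h
    constructor
    · intro h'; exact absurd h' (by decide)
    · omega

lemma cut_two {L j : ℕ} (hj : j ≤ L) (v : Fin (9 + L)) :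
    cut L j v = 2 ↔ ((5 ≤ (v : ℕ) ∧ (v : ℕ) < 9) ∨ 8 + j < (v : ℕ)) := by
  have h0 := cut_zero hj v
  have h1 := cut_one hj v
  by_cases e0 : cut L j v = 0
  · rw [e0]
    have := h0.1 e0
    constructor
    · intro h'; exact absurd h' (by decide)
    · omega
  · by_cases e1 : cut L j v = 1
    · rw [e1]
      have := h1.1 e1
      constructor
      · intro h'; exact absurd h' (by decide)
      · omega
    · have key : ∀ x : Fin 3, x ≠ 0 → x ≠ 1 → x = 2 := by decide
      have e2 := key _ e0 e1
      rw [h0] at e0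
      rw [h1] at e1
      constructor
      · intro _; omega
      · intro _; exact e2

/-- The only bad pair at the cut `j` is the step of the alternating path leaving position `j`. -/
lemma bad_H (L j : ℕ) (hL2 : L % 2 = 0) (hLp : 0 < L) (hj : j ≤ L) (u v : Fin (9 + L))
    (h : (cut L j u = 0 ∧ cut L j v ≠ 1 ∧ v ≠ u ∧ ¬ (H L).Adj u v) ∨
      (cut L j u = 1 ∧ cut L j v ≠ 0 ∧ (H L).Adj u v)) :
    (u : ℕ) = pathv L j ∧ (v : ℕ) = pathv L (j + 1) := by
  have hu := u.2
  have hv := v.2
  -- reduce to a step between `u` and `v`, when `v` is behind the cut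
  have fin1 : cut L j u ≠ 2 → cut L j v = 2 → (step L u v ∨ step L v u) →
      (u : ℕ) = pathv L j ∧ (v : ℕ) = pathv L (j + 1) := by
    intro h1 h2 hs
    rw [ne_eq, cut_two hj] at h1
    rw [cut_two hj] at h2
    unfold step at hs
    unfold pathv
    split_ifs <;> first | contradiction | omega
  have hlt : cut L j u ≠ 2 → cut L j v = 2 → pos L u < pos L v := by
    intro h1 h2
    rw [ne_eq, cut_two hj] at h1
    rw [cut_two hj] at h2
    have h1' := (pos_le_iff (v := (u : ℕ)) hj).2 (by omega)
    have h2' : ¬ pos L v ≤ j := by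
      rw [pos_le_iff hj]; omega
    omega
  rcases h with ⟨h0, h1, hne, hadj⟩ | ⟨h1, h0, hadj⟩
  · have hne' : (u : ℕ) ≠ v := fun h => hne (Fin.ext h.symm)
    have hst : theta L u v → step L u v ∨ step L v u := by
      intro hth
      by_contra hcon
      push Not at hcon
      exact hadj ⟨Ne.symm hne, Or.inl ⟨hth, hcon.1, hcon.2⟩⟩
    have hu0 : typ u = 0 := by
      rw [typ_zero]; rw [cut_zero hj] at h0; omega
    by_cases h2 : cut L j v = 2
    · have hu2 : cut L j u ≠ 2 := by rw [h0]; decide
      exact fin1 hu2 h2 (hst ((theta_of_lt (hlt hu2 h2)).2 hu0))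
    · exfalso
      have hv0 : cut L j v = 0 := by omega
      have hv0' : typ v = 0 := by
        rw [typ_zero]; rw [cut_zero hj] at hv0; omega
      have hth : theta L u v := by
        rcases lt_trichotomy (pos L u) (pos L v) with hp | hp | hp
        · exact Or.inl ⟨hp, hu0⟩
        · right; right
          refine ⟨hp, ?_⟩
          rw [cut_zero hj] at h0 hv0
          have h9 : (u : ℕ) < 2 ∧ (v : ℕ) < 2 := by
            unfold pos at hp
            split_ifs at hp <;> omega
          have : ((u : ℕ) = 0 ∧ (v : ℕ) = 1) ∨ ((u : ℕ) = 1 ∧ (v : ℕ) = 0) := by omega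
          rcases this with ⟨e1, e2⟩ | ⟨e1, e2⟩
          · left; rw [e1, e2]; decide
          · right; rw [e1, e2]; decide
        · exact Or.inr (Or.inl ⟨hp, hv0'⟩)
      have := hst hth
      rw [cut_zero hj] at h0 hv0
      unfold step at this
      omega
  · have hne' : (u : ℕ) ≠ v := by
      intro h
      exact hadj.1 (Fin.ext h)
    have hst : ¬ theta L u v → step L u v ∨ step L v u := by
      intro hth
      rcases hadj.2 with h | h
      · exact absurd h.1 hth
      · exact h.2
    have hu1 : typ u = 1 := by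
      rw [typ_one]; rw [cut_one hj] at h1; omega
    by_cases h2 : cut L j v = 2
    · have hu2 : cut L j u ≠ 2 := by rw [h1]; decide
      refine fin1 hu2 h2 (hst ?_)
      rw [theta_of_lt (hlt hu2 h2), hu1]
      decide
    · exfalso
      have hv1 : cut L j v = 1 := by omega
      have hv1' : typ v = 1 := by
        rw [typ_one]; rw [cut_one hj] at hv1; omega
      have hth : ¬ theta L u v := by
        rintro (h | h | h)
        · rw [hu1] at h; exact absurd h.2 (by decide)
        · rw [hv1'] at h; exact absurd h.2 (by decide)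
        · rw [cut_one hj] at h1 hv1
          have h9 : (2 ≤ (u : ℕ) ∧ (u : ℕ) < 5) ∧ (2 ≤ (v : ℕ) ∧ (v : ℕ) < 5) := by
            have hp := h.1
            unfold pos at hp
            split_ifs at hp <;> omega
          have hgt : ∀ a b : Fin 5, 2 ≤ (a : ℕ) → 2 ≤ (b : ℕ) → gT a b = false := by decide
          have e1 := hgt ⟨u, h9.1.2⟩ ⟨v, h9.2.2⟩ h9.1.1 h9.2.1
          have e2 := hgt ⟨v, h9.2.2⟩ ⟨u, h9.1.2⟩ h9.2.1 h9.1.1
          simp only at e1 e2
          rw [e1, e2] at h
          simp at h
      have := hst hth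
      rw [cut_one hj] at h1 hv1
      unfold step at this
      omega

/-! ### The main argument -/

/-- If an induced subgraph `K` of `H L` misses a chain vertex, no realization of the degrees of `K`
contains `G`. -/
lemma main (L : ℕ) (hL2 : L % 2 = 0) (hLp : 0 < L) {k : ℕ} (K T : SimpleGraph (Fin k))
    [DecidableRel K.Adj] [DecidableRel T.Adj]
    (ι : K ↪g H L) (hdeg : ∀ v, T.degree v = K.degree v) (φ : G₀ ↪g T)
    (i : ℕ) (hi0 : 0 < i) (hiL : i ≤ L) (hmiss : ∀ v, ((ι v : Fin (9 + L)) : ℕ) ≠ 8 + i) : False := by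
  classical
  -- bad pairs of `K` at the cut `j`
  have hK : ∀ j ≤ L, (bad K (fun v => cut L j (ι v))).card ≤ 1 := by
    intro j hj
    rw [Finset.card_le_one]
    intro p hp q hq
    simp only [bad, Finset.mem_filter, Finset.mem_univ, true_and] at hp hq
    rw [← ι.map_adj_iff] at hp hq
    have hp' := bad_H L j hL2 hLp hj (ι p.1) (ι p.2) (by
      rw [ι.injective.ne_iff]; exact hp)
    have hq' := bad_H L j hL2 hLp hj (ι q.1) (ι q.2) (by
      rw [ι.injective.ne_iff]; exact hq)
    have e1 : ι p.1 = ι q.1 := Fin.ext (hp'.1.trans hq'.1.symm)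
    have e2 : ι p.2 = ι q.2 := Fin.ext (hp'.2.trans hq'.2.symm)
    exact Prod.ext (ι.injective e1) (ι.injective e2)
  have hKi : (bad K (fun v => cut L i (ι v))).card = 0 := by
    rw [Finset.card_eq_zero, Finset.eq_empty_iff_forall_notMem]
    intro p hp
    simp only [bad, Finset.mem_filter, Finset.mem_univ, true_and] at hp
    rw [← ι.map_adj_iff] at hp
    have hp' := bad_H L i hL2 hLp hiL (ι p.1) (ι p.2) (by
      rw [ι.injective.ne_iff]; exact hp)
    apply hmiss p.1
    rw [hp'.1]
    unfold pathv
    split_ifs <;> omega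
  -- transfer to `G`
  have hG : ∀ j, (bad G₀ (fun g => cut L j (ι (φ g)))).card ≤
      (bad K (fun v => cut L j (ι v))).card := by
    intro j
    rw [← card_bad_eq T K hdeg]
    exact card_bad_le G₀ T φ (fun v => cut L j (ι v))
  have hinj : Function.Injective (fun g => ι (φ g)) := ι.injective.comp φ.injective
  have hstart : ∀ g, cut L i (ι (φ g)) = 2 :=
    G₀_no_cut _ (Nat.le_zero.1 ((hG i).trans hKi.le))
  -- the number of vertices of `G` before the cut stays at most one
  have hind : ∀ d, i + d ≤ L →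
      (Finset.univ.filter fun g => cut L (i + d) (ι (φ g)) ≠ 2).card ≤ 1 := by
    intro d
    induction d with
    | zero =>
      intro _
      simp [hstart]
    | succ d ih =>
      intro hd
      have ih := ih (by omega)
      have hsub : (Finset.univ.filter fun g => cut L (i + (d + 1)) (ι (φ g)) ≠ 2) ⊆
          (Finset.univ.filter fun g => cut L (i + d) (ι (φ g)) ≠ 2) ∪
          (Finset.univ.filter fun g => ((ι (φ g) : Fin (9 + L)) : ℕ) = 8 + (i + (d + 1))) := by
        intro g hg
        simp only [Finset.mem_union, Finset.mem_filter, Finset.mem_univ, true_and, ne_eq] at hg ⊢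
        rw [cut_two hd] at hg
        rw [cut_two (by omega : i + d ≤ L)]
        omega
      have hone : (Finset.univ.filter fun g =>
          ((ι (φ g) : Fin (9 + L)) : ℕ) = 8 + (i + (d + 1))).card ≤ 1 := by
        rw [Finset.card_le_one]
        intro a ha b hb
        simp only [Finset.mem_filter, Finset.mem_univ, true_and] at ha hb
        exact hinj (Fin.ext (ha.trans hb.symm))
      have hle := (Finset.card_le_card hsub).trans (Finset.card_union_le _ _)
      by_contra hcon
      have h2 : (Finset.univ.filter fun g => cut L (i + (d + 1)) (ι (φ g)) ≠ 2).card = 2 := by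
        omega
      have := G₀_two _ h2
      have := hG (i + (d + 1))
      have := hK _ hd
      omega
  have hend := hind (L - i) (by omega)
  rw [show i + (L - i) = L by omega] at hend
  -- but at most four vertices of `G` are behind the last cut
  have hlast : (Finset.univ.filter fun g => cut L L (ι (φ g)) = 2).card ≤ 4 := by
    have : (Finset.univ.filter fun g => cut L L (ι (φ g)) = 2).card ≤ (Finset.Ico 5 9).card := by
      apply Finset.card_le_card_of_injOn (fun g => ((ι (φ g) : Fin (9 + L)) : ℕ))
      · intro g hg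
        have hg' : cut L L (ι (φ g)) = 2 := by simpa using hg
        rw [cut_two le_rfl] at hg'
        have := (ι (φ g)).2
        simp only [Finset.coe_Ico, Set.mem_Ico]
        omega
      · intro a _ b _ hab
        exact hinj (Fin.ext hab)
    simpa using this
  have htot := Finset.card_filter_add_card_filter_not (s := (Finset.univ : Finset (Fin 9)))
    (fun g => cut L L (ι (φ g)) = 2)
  simp only [Finset.card_univ, Fintype.card_fin] at htot
  simp only [ne_eq] at hend
  omega

/-! ### `D(G)` is infinite -/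

/-- Realizing a degree multiset on the same vertex set. -/
lemma exists_same_degrees {k m : ℕ} (K : SimpleGraph (Fin k)) (K' : SimpleGraph (Fin m))
    (h : degSeq K' = degSeq K) {g : ℕ} (G : SimpleGraph (Fin g)) (hG : Nonempty (G ↪g K')) :
    ∃ T : SimpleGraph (Fin k), (∀ v, (T.neighborSet v).ncard = (K.neighborSet v).ncard) ∧
      Nonempty (G ↪g T) := by
  classical
  have hfib : ∀ c : ℕ, Nonempty ({v : Fin k // (K.neighborSet v).ncard = c} ≃
      {v : Fin m // (K'.neighborSet v).ncard = c}) := by
    intro c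
    refine ⟨Fintype.equivOfCardEq ?_⟩
    have hc := congrArg (Multiset.count c) h
    unfold degSeq at hc
    rw [Multiset.count_map, Multiset.count_map] at hc
    rw [Fintype.card_subtype, Fintype.card_subtype]
    simp only [Finset.card, Finset.filter_val]
    have e1 : ∀ (a : ℕ), (fun v : Fin k => (K.neighborSet v).ncard = a) =
        (fun v : Fin k => a = (K.neighborSet v).ncard) := by
      intro a; ext v; exact eq_comm
    have e2 : ∀ (a : ℕ), (fun v : Fin m => (K'.neighborSet v).ncard = a) =
        (fun v : Fin m => a = (K'.neighborSet v).ncard) := by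
      intro a; ext v; exact eq_comm
    simp only [e1, e2]
    exact hc.symm
  let e : Fin k ≃ Fin m := Equiv.ofFiberEquiv (fun c => (hfib c).some)
  have he : ∀ v, (K'.neighborSet (e v)).ncard = (K.neighborSet v).ncard :=
    fun v => Equiv.ofFiberEquiv_map (fun c => (hfib c).some) v
  refine ⟨K'.comap e, ?_, ?_⟩
  · intro v
    rw [← he v]
    have : (K'.neighborSet (e v)) = e '' ((K'.comap e).neighborSet v) := by
      ext u
      constructor
      · intro hu
        exact ⟨e.symm u, by simpa [SimpleGraph.mem_neighborSet] using hu, by simp⟩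
      · rintro ⟨w, hw, rfl⟩
        exact hw
    rw [this, Set.ncard_image_of_injective _ e.injective]
  · obtain ⟨φ⟩ := hG
    exact ⟨φ.trans (SimpleGraph.Iso.comap e K').symm.toEmbedding⟩

lemma unbounded (N : ℕ) : ∃ (n : ℕ) (K : SimpleGraph (Fin n)), InD G₀ K ∧ N < n := by
  classical
  set L := 2 * (N + 1) with hL
  have hL2 : L % 2 = 0 := by omega
  have hLp : 0 < L := by omega
  have hex : ∃ k, ∃ K : SimpleGraph (Fin k), Induces (H L) K ∧ InP G₀ K :=
    ⟨9 + L, H L, ⟨SimpleGraph.Embedding.refl⟩, inP_H L hL2 hLp⟩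
  obtain ⟨K, ⟨ι⟩, hP⟩ := Nat.find_spec hex
  refine ⟨Nat.find hex, K, ⟨hP, ?_⟩, ?_⟩
  · rintro m K' hm ⟨ι'⟩ hP'
    exact Nat.find_min hex hm ⟨K', ⟨ι'.trans ι⟩, hP'⟩
  · obtain ⟨m, K', hdeg, hG⟩ := hP
    obtain ⟨T, hT, ⟨φ⟩⟩ := exists_same_degrees K K' hdeg G₀ hG
    have hdeg' : ∀ v, T.degree v = K.degree v := by
      intro v
      have := hT v
      rwa [Set.ncard_eq_toFinset_card', Set.ncard_eq_toFinset_card',
        ← SimpleGraph.neighborFinset, ← SimpleGraph.neighborFinset,
        SimpleGraph.card_neighborFinset_eq_degree, SimpleGraph.card_neighborFinset_eq_degree] at this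
    have hall : ∀ i : Fin L, ∃ v, ((ι v : Fin (9 + L)) : ℕ) = 8 + (i + 1) := by
      intro i
      by_contra hcon
      push Not at hcon
      exact main L hL2 hLp K T ι hdeg' φ (i + 1) (by omega) (by omega) hcon
    choose f hf using hall
    have hinj : Function.Injective f := by
      intro i j hij
      have h1 := hf i
      have h2 := hf j
      rw [hij] at h1
      apply Fin.ext
      omega
    have := Fintype.card_le_of_injective f hinj
    simp only [Fintype.card_fin] at this
    omega

/-- Infinitely many pairwise non-isomorphic members of `D(G)`. -/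
theorem infinite_D : ∃ f : ℕ → Σ n : ℕ, SimpleGraph (Fin n),
    (∀ i, InD G₀ (f i).2) ∧ ∀ i j, i ≠ j → IsEmpty ((f i).2 ≃g (f j).2) := by
  have h : ∀ N : ℕ, ∃ x : Σ n : ℕ, SimpleGraph (Fin n), InD G₀ x.2 ∧ N < x.1 := by
    intro N
    obtain ⟨n, K, h1, h2⟩ := unbounded N
    exact ⟨⟨n, K⟩, h1, h2⟩
  choose g hg1 hg2 using h
  let f : ℕ → Σ n : ℕ, SimpleGraph (Fin n) := fun i => Nat.rec (g 0) (fun _ x => g x.1) i
  have hstep : ∀ i, (f i).1 < (f (i + 1)).1 := fun i => hg2 (f i).1
  have hmono : StrictMono fun i => (f i).1 := strictMono_nat_of_lt_succ hstep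
  refine ⟨f, ?_, ?_⟩
  · intro i
    cases i with
    | zero => exact hg1 0
    | succ i => exact hg1 (f i).1
  · intro i j hij
    refine ⟨fun e => hij (hmono.injective ?_)⟩
    have := Fintype.card_congr e.toEquiv
    simpa using this

end Pool.Agent.H64.Dsf
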