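import Mathlib

/-!
# Common partitions of phylogenetic trees: the definitions

The definitions behind `s_{n,k}` and `c_{n,k}` (problem MP_ae7dce_co).
-/

set_option autoImplicit false

namespace Pool.Agent.H64.Phylo

open SimpleGraph

/-- A phylogenetic tree of size `n`: a finite tree in which every vertex has degree `1` or `3`,
together with a bijective labelling of its degree-one vertices (leaves) by `Fin n`. -/
structure PhyloTree (n : ℕ) where
  /-- the vertices -/
  V : Type
  /-- there are finitely many vertices -/
  finite : Finite V
  /-- the underlying graph -/
  G : SimpleGraph V
  /-- the graph is a tree -/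
  isTree : G.IsTree
  /-- every degree is `1` or `3` -/
  degree_eq : ∀ v, (G.neighborSet v).ncard = 1 ∨ (G.neighborSet v).ncard = 3
  /-- the leaf with a given label -/
  leaf : Fin n → V
  /-- different labels are at different leaves -/
  leaf_injective : Function.Injective leaf
  /-- the labelled vertices are exactly the vertices of degree one -/
  range_leaf : Set.range leaf = {v | (G.neighborSet v).ncard = 1}

namespace PhyloTree

variable {n : ℕ}

/-- The partition of the labels obtained by deleting the edges in `D`: two labels are equivalent
when their leaves lie in the same component of what remains. -/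
def cut (T : PhyloTree n) (D : Set (Sym2 T.V)) : Setoid (Fin n) where
  r i j := (T.G.deleteEdges D).Reachable (T.leaf i) (T.leaf j)
  iseqv :=
    { refl := fun _ => Reachable.refl _
      symm := fun h => h.symm
      trans := fun h h' => h.trans h' }

/-- The set of all partitions of the labels obtained by deleting some set of edges. -/
def partitions (T : PhyloTree n) : Set (Setoid (Fin n)) :=
  {s | ∃ D : Set (Sym2 T.V), D ⊆ T.G.edgeSet ∧ s = T.cut D}

/-- A caterpillar: either `n ≤ 2`, or the internal vertices (those of degree three) induce a path
on `n - 2` vertices. -/
def IsCaterpillar (T : PhyloTree n) : Prop :=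
  n ≤ 2 ∨ Nonempty (T.G.induce {v | (T.G.neighborSet v).ncard = 3} ≃g pathGraph (n - 2))

end PhyloTree

/-- The partitions of the label set into exactly `k` classes. -/
def kPartitions (n k : ℕ) : Set (Setoid (Fin n)) :=
  {s | Nat.card (Quotient s) = k}

/-- The number of common partitions of `T` and `F` with exactly `k` classes. -/
noncomputable def common {n : ℕ} (T F : PhyloTree n) (k : ℕ) : ℕ :=
  (T.partitions ∩ F.partitions ∩ kPartitions n k).ncard

/-- `s_{n,k}`: the minimum of the number of common partitions over all pairs of trees. -/
noncomputable def sMin (n k : ℕ) : ℕ :=
  sInf {m | ∃ T F : PhyloTree n, m = common T F k}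

/-- `c_{n,k}`: the minimum of the number of common partitions over all pairs of caterpillars. -/
noncomputable def cMin (n k : ℕ) : ℕ :=
  sInf {m | ∃ T F : PhyloTree n, T.IsCaterpillar ∧ F.IsCaterpillar ∧ m = common T F k}

end Pool.Agent.H64.Phylo
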