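import Pool.Agent.H64.PhyloDefs

/-!
# Proof that `s_{7,4} ≤ 35 < 36 ≤ c_{7,4}`
-/

set_option autoImplicit false

namespace Pool.Agent.H64.Phylo

open SimpleGraph

/-! ### Walk lemmas -/

/-- If `x` separates the two ends of a walk, the walk visits `x`. -/
lemma reachable_cut {V : Type*} {H : SimpleGraph V} {x a b : V} {c : Type*} (br : V → c)
    (hbr : ∀ u v, u ≠ x → v ≠ x → H.Adj u v → br u = br v)
    (hab : H.Reachable a b) (hne : br a ≠ br b) :
    H.Reachable a x := by
  by_contra hcon
  obtain ⟨w⟩ := hab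
  have key : ∀ v, H.Reachable a v → v ≠ x := by
    rintro v hv rfl
    exact hcon hv
  have h2 : ∀ (u v : V) (w : H.Walk u v), H.Reachable a u → br u = br v := by
    intro u v w
    induction w with
    | nil => intro _; rfl
    | cons hadj p ih =>
      intro hu
      have hv := hu.trans (Adj.reachable hadj)
      rw [hbr _ _ (key _ hu) (key _ hv) hadj]
      exact ih hv
  exact hne (h2 _ _ w (Reachable.refl _))

/-- A function constant along edges is constant along walks. -/
lemma eq_of_reachable {V : Type*} {H : SimpleGraph V} {c : Type*} (f : V → c)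
    (hf : ∀ u v, H.Adj u v → f u = f v) {a b : V} (hab : H.Reachable a b) : f a = f b := by
  obtain ⟨w⟩ := hab
  induction w with
  | nil => rfl
  | cons hadj p ih => rw [hf _ _ hadj, ih]

/-- A colouring of the vertices such that leaves of equal colour are joined by monochromatic paths
gives a partition of the tree. -/
lemma ker_mem_partitions {n : ℕ} (T : PhyloTree n) {c : Type*} (f : T.V → c) (s : Setoid (Fin n))
    (hs : ∀ i j, s i j → ∀ H : SimpleGraph T.V, (∀ u v, T.G.Adj u v → f u = f v → H.Adj u v) →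
      H.Reachable (T.leaf i) (T.leaf j))
    (hf : ∀ i j, f (T.leaf i) = f (T.leaf j) → s i j) : s ∈ T.partitions := by
  refine ⟨{e | e ∈ T.G.edgeSet ∧ ¬ ∃ u v, e = s(u, v) ∧ f u = f v}, fun e he => he.1, ?_⟩
  ext i j
  constructor
  · intro h
    refine hs i j h _ ?_
    intro u v huv hfuv
    rw [deleteEdges_adj]
    refine ⟨huv, ?_⟩
    rintro ⟨_, h2⟩
    exact h2 ⟨u, v, rfl, hfuv⟩
  · intro h
    apply hf
    refine eq_of_reachable f ?_ h
    intro u v hadj
    rw [deleteEdges_adj] at hadj
    by_contra hne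
    apply hadj.2
    refine ⟨hadj.1, ?_⟩
    rintro ⟨u', v', he, hff⟩
    rw [Sym2.eq_iff] at he
    rcases he with ⟨rfl, rfl⟩ | ⟨rfl, rfl⟩
    · exact hne hff
    · exact hne hff.symm

/-! ### The structure of caterpillars with seven leaves -/

/-- The spine data of a caterpillar with seven leaves. -/
structure Spine (T : PhyloTree 7) where
  /-- spine vertices -/
  w : Fin 5 → T.V
  /-- position of a leaf along the spine -/
  p : Fin 7 → Fin 5
  adjw : ∀ i j : Fin 5, (i : ℕ) + 1 = j → T.G.Adj (w i) (w j)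
  adjl : ∀ i, T.G.Adj (T.leaf i) (w (p i))
  ne : ∀ i j, T.leaf i ≠ w j
  inj : Function.Injective w
  fib : ∀ j : Fin 5, (Finset.univ.filter (fun i => p i = j)).card =
    if j = 0 ∨ j = 4 then 2 else 1

lemma exists_spine (T : PhyloTree 7) (hT : T.IsCaterpillar) : Nonempty (Spine T) := by
  classical
  have hfin := T.finite
  rcases hT with h | ⟨⟨φ⟩⟩
  · omega
  have φ' : T.G.induce {v | (T.G.neighborSet v).ncard = 3} ≃g pathGraph 5 := φ
  clear φ
  rename' φ' => φ
  set w : Fin 5 → T.V := fun j => (φ.symm j : T.V) with hw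
  have hw3 : ∀ j, (T.G.neighborSet (w j)).ncard = 3 := fun j => (φ.symm j).2
  have hadj : ∀ i j, T.G.Adj (w i) (w j) ↔ (pathGraph 5).Adj i j := by
    intro i j
    rw [← φ.symm.map_adj_iff]
    rfl
  have hinj : Function.Injective w := by
    intro i j hij
    exact φ.symm.injective (Subtype.ext hij)
  have hl1 : ∀ i, (T.G.neighborSet (T.leaf i)).ncard = 1 := by
    intro i
    have : T.leaf i ∈ Set.range T.leaf := ⟨i, rfl⟩
    rw [T.range_leaf] at this
    exact this
  have hne : ∀ i j, T.leaf i ≠ w j := by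
    intro i j h
    have h1 := hl1 i
    have h3 := hw3 j
    rw [← h] at h3
    omega
  have hnb : ∀ i, ∃ j, T.G.Adj (T.leaf i) (w j) := by
    intro i
    obtain ⟨u, hu⟩ := Set.ncard_eq_one.mp (hl1 i)
    have hadju : T.G.Adj (T.leaf i) u := by
      have : u ∈ T.G.neighborSet (T.leaf i) := by rw [hu]; rfl
      exact this
    rcases T.degree_eq u with h1 | h3
    · exfalso
      obtain ⟨u', hu'⟩ := Set.ncard_eq_one.mp h1
      have hu'' : u' = T.leaf i := by
        have : T.leaf i ∈ T.G.neighborSet u := hadju.symm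
        rw [hu'] at this
        exact this.symm
      subst hu''
      have hreach := T.isTree.connected.preconnected (T.leaf i) (w 0)
      have := eq_of_reachable (fun v => v = T.leaf i ∨ v = u) (by
        intro x y hxy
        apply propext
        constructor
        · rintro (rfl | rfl)
          · right
            have : y ∈ T.G.neighborSet (T.leaf i) := hxy
            rw [hu] at this
            exact this
          · left
            have : y ∈ T.G.neighborSet x := hxy
            rw [hu'] at this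
            exact this
        · rintro (rfl | rfl)
          · right
            have : x ∈ T.G.neighborSet (T.leaf i) := hxy.symm
            rw [hu] at this
            exact this
          · left
            have : x ∈ T.G.neighborSet y := hxy.symm
            rw [hu'] at this
            exact this) hreach
      simp only [true_or, eq_iff_iff, true_iff] at this
      rcases this with h | h
      · exact hne i 0 h.symm
      · have h3 := hw3 0
        rw [h, h1] at h3
        omega
    · refine ⟨φ ⟨u, h3⟩, ?_⟩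
      have : w (φ ⟨u, h3⟩) = u := by simp [hw]
      rw [this]
      exact hadju
  choose p hp using hnb
  refine ⟨⟨w, p, ?_, hp, hne, hinj, ?_⟩⟩
  · intro i j hij
    rw [hadj, pathGraph_adj]
    left; exact hij
  · intro j
    have hset : T.G.neighborSet (w j) =
        w '' {k | (pathGraph 5).Adj j k} ∪ T.leaf '' {i | p i = j} := by
      ext v
      constructor
      · intro hv
        have hv' : T.G.Adj (w j) v := hv
        rcases T.degree_eq v with h1 | h3
        · right
          have : v ∈ Set.range T.leaf := by rw [T.range_leaf]; exact h1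
          obtain ⟨i, rfl⟩ := this
          refine ⟨i, ?_, rfl⟩
          obtain ⟨u, hu⟩ := Set.ncard_eq_one.mp h1
          have h2 : w (p i) = u := by
            have : w (p i) ∈ T.G.neighborSet (T.leaf i) := hp i
            rw [hu] at this; exact this
          have h4 : w j = u := by
            have : w j ∈ T.G.neighborSet (T.leaf i) := hv'.symm
            rw [hu] at this; exact this
          exact hinj (h2.trans h4.symm)
        · left
          refine ⟨φ ⟨v, h3⟩, ?_, by simp [hw]⟩
          have hv2 : w (φ ⟨v, h3⟩) = v := by simp [hw]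
          rw [Set.mem_ofPred_eq, ← hadj, hv2]
          exact hv'
      · rintro (⟨k, hk, rfl⟩ | ⟨i, hi, rfl⟩)
        · exact (hadj j k).2 hk
        · have := (hp i).symm
          rw [Set.mem_ofPred_eq] at hi
          rw [hi] at this
          exact this
    have hdisj : Disjoint (w '' {k | (pathGraph 5).Adj j k}) (T.leaf '' {i | p i = j}) := by
      rw [Set.disjoint_left]
      rintro _ ⟨k, _, rfl⟩ ⟨i, _, h⟩
      exact hne i k h
    have hcard := hw3 j
    rw [hset, Set.ncard_union_eq hdisj (Set.toFinite _) (Set.toFinite _),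
      Set.ncard_image_of_injective _ hinj, Set.ncard_image_of_injective _ T.leaf_injective] at hcard
    have e1 : ({i | p i = j} : Set (Fin 7)).ncard =
        (Finset.univ.filter (fun i => p i = j)).card := by
      rw [← Set.ncard_coe_finset]
      congr 1
      ext i; simp
    have e2 : ({k | (pathGraph 5).Adj j k} : Set (Fin 5)).ncard =
        (Finset.univ.filter (fun k : Fin 5 => (j : ℕ) + 1 = k ∨ (k : ℕ) + 1 = j)).card := by
      rw [← Set.ncard_coe_finset]
      congr 1
      ext k
      simp only [Set.mem_ofPred_eq, pathGraph_adj, Finset.coe_filter, Finset.mem_univ, true_and]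
    rw [e1, e2] at hcard
    have e3 : ∀ j : Fin 5, (Finset.univ.filter (fun k : Fin 5 => (j : ℕ) + 1 = k ∨ (k : ℕ) + 1 = j)).card =
        if j = 0 ∨ j = 4 then 1 else 2 := by
      decide
    rw [e3] at hcard
    split_ifs at hcard ⊢ <;> omega

/-- Two pairs of positions span disjoint intervals. -/
def Dis (a b c d : ℕ) : Prop := max a b < min c d ∨ max c d < min a b

instance (a b c d : ℕ) : Decidable (Dis a b c d) := by unfold Dis; infer_instance

/-- Convexity of a partition with respect to positions. -/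
def Conv (p : Fin 7 → Fin 5) (s : Setoid (Fin 7)) : Prop :=
  ∀ a b c d, a ≠ b → c ≠ d → s a b → s c d → ¬ s a c → Dis (p a) (p b) (p c) (p d)

lemma mem_of_conv (T : PhyloTree 7) (S : Spine T) (s : Setoid (Fin 7)) (h : Conv S.p s) :
    s ∈ T.partitions := by
  classical
  set f : T.V → Set (Fin 7) := fun v => {x | (∃ i, v = T.leaf i ∧ s x i) ∨
    (∃ (j : Fin 5) (a b : Fin 7), v = S.w j ∧ a ≠ b ∧ s a b ∧ s x a ∧ S.p a ≤ j ∧ j ≤ S.p b)}
    with hf
  have hleaf : ∀ i, f (T.leaf i) = {x | s x i} := by
    intro i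
    ext x
    simp only [hf, Set.mem_ofPred_eq]
    constructor
    · rintro (⟨i', hi, hx⟩ | ⟨j, a, b, hj, _⟩)
      · have := T.leaf_injective hi
        subst this; exact hx
      · exact absurd hj (S.ne i j)
    · intro hx
      exact Or.inl ⟨i, rfl, hx⟩
  have hwj : ∀ (j : Fin 5) (a b : Fin 7), a ≠ b → s a b → S.p a ≤ j → j ≤ S.p b →
      f (S.w j) = {x | s x a} := by
    intro j a b hab hsab h1 h2
    ext x
    simp only [hf, Set.mem_ofPred_eq]
    constructor
    · rintro (⟨i', hi, hx⟩ | ⟨j', a', b', hj, hab', hsab', hx, h1', h2'⟩)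
      · exact absurd hi.symm (S.ne i' j)
      · have := S.inj hj
        subst this
        by_cases hsa : s a a'
        · exact s.iseqv.trans hx (s.iseqv.symm hsa)
        · exfalso
          have := h a b a' b' hab hab' hsab hsab' hsa
          unfold Dis at this
          simp only [Fin.le_def] at h1 h2 h1' h2'
          omega
    · intro hx
      exact Or.inr ⟨j, a, b, rfl, hab, hsab, hx, h1, h2⟩
  apply ker_mem_partitions T f s
  · have key : ∀ i j, s i j → i ≠ j → S.p i ≤ S.p j → ∀ H : SimpleGraph T.V,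
        (∀ u v, T.G.Adj u v → f u = f v → H.Adj u v) → H.Reachable (T.leaf i) (T.leaf j) := by
      intro i j hij hne hle H hH
      have h1 : H.Adj (T.leaf i) (S.w (S.p i)) := by
        apply hH _ _ (S.adjl i)
        rw [hleaf, hwj (S.p i) i j hne hij le_rfl hle]
      have h2 : H.Adj (T.leaf j) (S.w (S.p j)) := by
        apply hH _ _ (S.adjl j)
        rw [hleaf, hwj (S.p j) i j hne hij hle le_rfl]
        ext x
        exact ⟨fun hx => s.iseqv.trans hx (s.iseqv.symm hij), fun hx => s.iseqv.trans hx hij⟩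
      have h3 : ∀ (m : ℕ) (k : Fin 5), (k : ℕ) = S.p i + m → k ≤ S.p j →
          H.Reachable (S.w (S.p i)) (S.w k) := by
        intro m
        induction m with
        | zero =>
          intro k hk _
          have : k = S.p i := Fin.ext (by simpa using hk)
          rw [this]
        | succ m ih =>
          intro k hk hkj
          have hk5 := k.2
          have hm : (S.p i : ℕ) + m < 5 := by omega
          have hk' := ih ⟨S.p i + m, hm⟩ rfl (by
            rw [Fin.le_def] at hkj ⊢
            simp only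
            omega)
          refine hk'.trans (Adj.reachable (hH _ _ (S.adjw _ _ (by simp only; omega)) ?_))
          rw [hwj _ i j hne hij, hwj k i j hne hij]
          · rw [Fin.le_def]; omega
          · exact hkj
          · rw [Fin.le_def]; simp
          · rw [Fin.le_def] at hkj ⊢
            simp only
            omega
      have h4 := h3 ((S.p j : ℕ) - S.p i) (S.p j) (by
        rw [Fin.le_def] at hle; omega) le_rfl
      exact (Adj.reachable h1).trans (h4.trans (Adj.reachable h2.symm))
    intro i j hij H hH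
    by_cases hne : i = j
    · rw [hne]
    · rcases le_total (S.p i) (S.p j) with hle | hle
      · exact key i j hij hne hle H hH
      · exact (key j i (s.iseqv.symm hij) (Ne.symm hne) hle H hH).symm
  · intro i j hij
    rw [hleaf, hleaf] at hij
    have : i ∈ {x | s x i} := s.iseqv.refl i
    rw [hij] at this
    exact this

/-! ### The finite check for pairs of caterpillars -/

/-- The standard positions. -/
def std : Fin 7 → Fin 5 := ![0, 0, 1, 2, 3, 4, 4]

/-- The list of pairs `a < b`. -/
def pairs : List (ℕ × ℕ) :=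
  [(0,1),(0,2),(0,3),(0,4),(0,5),(0,6),(1,2),(1,3),(1,4),(1,5),(1,6),(2,3),(2,4),(2,5),(2,6),
   (3,4),(3,5),(3,6),(4,5),(4,6),(5,6)]

/-- Boolean version of `Dis`. -/
def disB (a b c d : ℕ) : Bool :=
  (Nat.blt a c && Nat.blt a d && Nat.blt b c && Nat.blt b d) ||
  (Nat.blt c a && Nat.blt d a && Nat.blt c b && Nat.blt d b)

lemma dis_of_disB {a b c d : ℕ} (h : disB a b c d = true) : Dis a b c d := by
  unfold disB at h
  unfold Dis
  simp only [Bool.or_eq_true, Bool.and_eq_true, Nat.blt_eq] at h
  omega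

/-- Boolean convexity check for position list `q` and colour list `g`. -/
def convB (q g : List ℕ) : Bool :=
  pairs.all fun x => !(Nat.beq (g.getD x.1 0) (g.getD x.2 0)) ||
    pairs.all fun y => !(Nat.beq (g.getD y.1 0) (g.getD y.2 0)) ||
      Nat.beq (g.getD x.1 0) (g.getD y.1 0) ||
      disB (q.getD x.1 0) (q.getD x.2 0) (q.getD y.1 0) (q.getD y.2 0)

/-- Seventeen partitions, as colour lists. -/
def gList : List (List ℕ) :=
  [[0, 0, 0, 1, 1, 2, 3], [0, 1, 2, 0, 3, 3, 3], [0, 0, 1, 1, 2, 1, 3], [0, 1, 1, 2, 1, 3, 3],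
   [0, 1, 1, 1, 2, 2, 3], [0, 1, 0, 2, 2, 3, 2], [0, 0, 1, 2, 1, 3, 1], [0, 1, 0, 2, 0, 3, 3],
   [0, 1, 1, 2, 2, 3, 2], [0, 1, 0, 0, 2, 2, 3], [0, 1, 1, 1, 2, 3, 2], [0, 0, 1, 0, 2, 2, 3],
   [0, 1, 0, 2, 2, 2, 3], [0, 1, 2, 0, 0, 3, 3], [0, 0, 0, 1, 2, 1, 3], [0, 1, 0, 0, 2, 3, 2],
   [0, 1, 1, 2, 2, 2, 3]]

/-- The number of occurrences of each position is not too large. -/
def good (l : List ℕ) : Bool :=
  Nat.ble (l.count 0) 2 && Nat.ble (l.count 1) 1 && Nat.ble (l.count 2) 1 &&
    Nat.ble (l.count 3) 1 && Nat.ble (l.count 4) 2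

/-- Bounded quantification over five positions. -/
def allFive (f : ℕ → Bool) : Bool := f 0 && f 1 && f 2 && f 3 && f 4

lemma allFive_spec {f : ℕ → Bool} (h : allFive f = true) (a : Fin 5) : f a = true := by
  unfold allFive at h
  simp only [Bool.and_eq_true] at h
  obtain ⟨⟨⟨⟨h0, h1⟩, h2⟩, h3⟩, h4⟩ := h
  fin_cases a <;> assumption

theorem check : (allFive fun a => allFive fun b => !(good [a, b]) ||
    allFive fun c => !(good [a, b, c]) || allFive fun d => !(good [a, b, c, d]) ||
    allFive fun e => !(good [a, b, c, d, e]) ||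
    allFive fun f => !(good [a, b, c, d, e, f]) ||
    allFive fun g => !(good [a, b, c, d, e, f, g]) ||
    (gList.any fun l => convB [a, b, c, d, e, f, g] l)) = true := by
  decide +kernel

lemma good_sublist {l l' : List ℕ} (h : List.Sublist l l') (h' : good l' = true) :
    good l = true := by
  unfold good at *
  simp only [Bool.and_eq_true, Nat.ble_eq] at *
  obtain ⟨⟨⟨⟨h0, h1⟩, h2⟩, h3⟩, h4⟩ := h'
  exact ⟨⟨⟨⟨(h.count_le 0).trans h0, (h.count_le 1).trans h1⟩, (h.count_le 2).trans h2⟩,
    (h.count_le 3).trans h3⟩, (h.count_le 4).trans h4⟩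

lemma exists_g (q : Fin 7 → Fin 5)
    (hq : ∀ j : Fin 5, (Finset.univ.filter (fun i => q i = j)).card =
      if j = 0 ∨ j = 4 then 2 else 1) :
    ∃ l ∈ gList, convB [(q 0 : ℕ), q 1, q 2, q 3, q 4, q 5, q 6] l = true := by
  have hgood : good [(q 0 : ℕ), q 1, q 2, q 3, q 4, q 5, q 6] = true := by
    have hc : ∀ j : Fin 5, [(q 0 : ℕ), q 1, q 2, q 3, q 4, q 5, q 6].count (j : ℕ) =
        (Finset.univ.filter (fun i => q i = j)).card := by
      intro j
      rw [Finset.card_filter, Fin.sum_univ_seven]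
      simp only [List.count_cons, List.count_nil, beq_iff_eq, Fin.ext_iff]
      omega
    unfold good
    have h0 := hc 0
    have h1 := hc 1
    have h2 := hc 2
    have h3 := hc 3
    have h4 := hc 4
    rw [hq] at h0 h1 h2 h3 h4
    simp only [Fin.isValue, Fin.val_zero, Fin.val_one, Fin.val_two] at h0 h1 h2 h3 h4
    simp only [Bool.and_eq_true, Nat.ble_eq]
    refine ⟨⟨⟨⟨?_, ?_⟩, ?_⟩, ?_⟩, ?_⟩
    · simpa using h0.le
    · simpa using h1.le
    · simpa using h2.le
    · simpa using h3.le
    · simpa using h4.le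
  have h := check
  have h := allFive_spec h (q 0)
  have h := allFive_spec h (q 1)
  rw [good_sublist (l := [(q 0 : ℕ), q 1]) (by simp) hgood] at h
  have h := allFive_spec (by simpa using h) (q 2)
  rw [good_sublist (l := [(q 0 : ℕ), q 1, q 2]) (by simp) hgood] at h
  have h := allFive_spec (by simpa using h) (q 3)
  rw [good_sublist (l := [(q 0 : ℕ), q 1, q 2, q 3]) (by simp) hgood] at h
  have h := allFive_spec (by simpa using h) (q 4)
  rw [good_sublist (l := [(q 0 : ℕ), q 1, q 2, q 3, q 4]) (by simp) hgood] at h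
  have h := allFive_spec (by simpa using h) (q 5)
  rw [good_sublist (l := [(q 0 : ℕ), q 1, q 2, q 3, q 4, q 5]) (by simp) hgood] at h
  have h := allFive_spec (by simpa using h) (q 6)
  rw [hgood] at h
  simp only [Bool.not_true, Bool.false_or, List.any_eq_true] at h
  obtain ⟨l, hl, h⟩ := h
  exact ⟨l, hl, h⟩

lemma conv_of_convB (q : Fin 7 → Fin 5) (l : List ℕ)
    (h : convB [(q 0 : ℕ), q 1, q 2, q 3, q 4, q 5, q 6] l = true) (a b c d : Fin 7)
    (hab : a ≠ b) (hcd : c ≠ d) (h1 : l.getD a 0 = l.getD b 0) (h2 : l.getD c 0 = l.getD d 0)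
    (h3 : l.getD a 0 ≠ l.getD c 0) : Dis (q a) (q b) (q c) (q d) := by
  have hq : ∀ x : Fin 7, [(q 0 : ℕ), q 1, q 2, q 3, q 4, q 5, q 6].getD x 0 = q x := by
    intro x; fin_cases x <;> rfl
  have hp : ∀ a b : Fin 7, a ≠ b → ((a : ℕ), (b : ℕ)) ∈ pairs ∨ ((b : ℕ), (a : ℕ)) ∈ pairs := by
    decide
  have hsym1 : ∀ {x y z w : ℕ}, Dis x y z w → Dis y x z w := by
    intro x y z w; unfold Dis; omega
  have hsym2 : ∀ {x y z w : ℕ}, Dis x y z w → Dis x y w z := by
    intro x y z w; unfold Dis; omega
  have key : ∀ a b c d : Fin 7, ((a : ℕ), (b : ℕ)) ∈ pairs → ((c : ℕ), (d : ℕ)) ∈ pairs →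
      l.getD a 0 = l.getD b 0 → l.getD c 0 = l.getD d 0 → l.getD a 0 ≠ l.getD c 0 →
      Dis (q a) (q b) (q c) (q d) := by
    intro a b c d hab hcd h1 h2 h3
    unfold convB at h
    rw [List.all_eq_true] at h
    have h' := h _ hab
    simp only [Bool.or_eq_true, Bool.not_eq_true', List.all_eq_true] at h'
    rcases h' with h' | h'
    · rw [h1] at h'
      simp at h'
    · have h'' := h' _ hcd
      rcases h'' with (h'' | h'') | h''
      · rw [h2] at h''
        simp at h''
      · rw [Nat.beq_eq] at h''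
        exact absurd h'' h3
      · simp only [hq] at h''
        exact dis_of_disB h''
  rcases hp a b hab with hab' | hab' <;> rcases hp c d hcd with hcd' | hcd'
  · exact key a b c d hab' hcd' h1 h2 h3
  · exact hsym2 (key a b d c hab' hcd' h1 h2.symm (by rw [← h2]; exact h3))
  · exact hsym1 (key b a c d hab' hcd' h1.symm h2 (by rw [← h1]; exact h3))
  · exact hsym1 (hsym2 (key b a d c hab' hcd' h1.symm h2.symm (by rw [← h1, ← h2]; exact h3)))

/-! ### Trivial partitions -/

/-- The partition whose classes are the singletons of `S` and the complement of `S`. -/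
def triv (S : Finset (Fin 7)) : Setoid (Fin 7) :=
  Setoid.ker (fun i => if i ∈ S then some i else none)

lemma triv_iff (S : Finset (Fin 7)) (i j : Fin 7) : triv S i j ↔ i = j ∨ (i ∉ S ∧ j ∉ S) := by
  unfold triv
  rw [Setoid.ker_def]
  by_cases hi : i ∈ S <;> by_cases hj : j ∈ S <;> simp [hi, hj]
  · rintro rfl; exact hj hi
  · rintro rfl; exact hi hj

lemma conv_triv (p : Fin 7 → Fin 5) (S : Finset (Fin 7)) : Conv p (triv S) := by
  intro a b c d hab hcd h1 h2 h3
  exfalso
  rw [triv_iff] at h1 h2 h3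
  apply h3
  right
  exact ⟨(h1.resolve_left hab).1, (h2.resolve_left hcd).1⟩

lemma card_quot_triv (S : Finset (Fin 7)) (hS : S ≠ Finset.univ) :
    Nat.card (Quotient (triv S)) = S.card + 1 := by
  unfold triv
  rw [Nat.card_congr (Setoid.quotientKerEquivRange _)]
  have : Set.range (fun i : Fin 7 => if i ∈ S then some i else none) =
      ↑(insert none (S.map Function.Embedding.some)) := by
    ext x
    simp only [Set.mem_range, Finset.coe_insert, Finset.coe_map, Set.mem_insert_iff,
      Set.mem_image, Finset.mem_coe, Function.Embedding.some_apply]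
    constructor
    · rintro ⟨i, rfl⟩
      by_cases hi : i ∈ S
      · right; exact ⟨i, hi, by simp [hi]⟩
      · left; simp [hi]
    · rintro (rfl | ⟨i, hi, rfl⟩)
      · obtain ⟨i, hi⟩ : ∃ i, i ∉ S := by
          by_contra hcon
          push Not at hcon
          exact hS (Finset.eq_univ_iff_forall.2 hcon)
        exact ⟨i, by simp [hi]⟩
      · exact ⟨i, by simp [hi]⟩
  rw [Nat.card_coe_set_eq, this, Set.ncard_coe_finset, Finset.card_insert_of_notMem, Finset.card_map]
  simp

lemma triv_injOn : Set.InjOn triv {S : Finset (Fin 7) | S.card = 3} := by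
  have key : ∀ S S' : Finset (Fin 7), S'.card = 3 → triv S = triv S' → S ⊆ S' := by
    intro S S' hS' h i hi
    by_contra hi'
    obtain ⟨j, hj, hij⟩ : ∃ j, j ∉ S' ∧ j ≠ i := by
      by_contra hcon
      push Not at hcon
      have : (Finset.univ : Finset (Fin 7)) ⊆ insert i S' := by
        intro j _
        by_cases hj : j ∈ S'
        · exact Finset.mem_insert_of_mem hj
        · rw [hcon j hj]; exact Finset.mem_insert_self _ _
      have := Finset.card_le_card this
      have := Finset.card_insert_le i S'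
      simp at *
      omega
    have h1 : triv S' i j := (triv_iff _ _ _).2 (Or.inr ⟨hi', hj⟩)
    rw [← h, triv_iff] at h1
    rcases h1 with h1 | h1
    · exact hij h1.symm
    · exact h1.1 hi
  intro S hS S' hS' h
  exact Finset.Subset.antisymm (key S S' hS' h) (key S' S hS h.symm)

lemma ncard_triv : (triv '' {S : Finset (Fin 7) | S.card = 3}).ncard = 35 := by
  rw [triv_injOn.ncard_image]
  have : {S : Finset (Fin 7) | S.card = 3} =
      ↑(Finset.powersetCard 3 (Finset.univ : Finset (Fin 7))) := by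
    ext S; simp [Finset.mem_powersetCard]
  rw [this, Set.ncard_coe_finset, Finset.card_powersetCard]
  rfl

instance finite_setoid : Finite (Setoid (Fin 7)) :=
  Finite.of_injective (fun s : Setoid (Fin 7) => s.r) (by
    intro s t h
    ext a b
    have := congrFun (congrFun h a) b
    exact iff_of_eq this)

/-- Facts about the seventeen partitions. -/
theorem gList_facts : ∀ l ∈ gList, convB [0, 0, 1, 2, 3, 4, 4] l = true ∧
    (∀ i : Fin 7, l.getD i 0 < 4) ∧ (∀ c : Fin 4, ∃ i : Fin 7, l.getD i 0 = c) ∧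
    (∃ a b c d : Fin 7, a ≠ b ∧ c ≠ d ∧ l.getD a 0 = l.getD b 0 ∧ l.getD c 0 = l.getD d 0 ∧
      l.getD a 0 ≠ l.getD c 0) := by
  decide +kernel

lemma common_ge (T F : PhyloTree 7) (hT : T.IsCaterpillar) (hF : F.IsCaterpillar) :
    36 ≤ common T F 4 := by
  classical
  obtain ⟨ST⟩ := exists_spine T hT
  obtain ⟨SF⟩ := exists_spine F hF
  -- align the positions in `T` with the standard ones
  have hstd : ∀ j : Fin 5, (Finset.univ.filter (fun i => std i = j)).card =
      if j = 0 ∨ j = 4 then 2 else 1 := by decide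
  obtain ⟨e, he⟩ : ∃ e : Fin 7 ≃ Fin 7, ∀ i, ST.p (e i) = std i := by
    have h : ∀ j : Fin 5, Nonempty ({i // std i = j} ≃ {i // ST.p i = j}) := by
      intro j
      refine ⟨Fintype.equivOfCardEq ?_⟩
      rw [Fintype.card_subtype, Fintype.card_subtype, hstd, ST.fib]
    exact ⟨Equiv.ofFiberEquiv (fun j => (h j).some),
      fun i => Equiv.ofFiberEquiv_map (fun j => (h j).some) i⟩
  have hfib : ∀ j : Fin 5, (Finset.univ.filter (fun i => SF.p (e i) = j)).card =
      if j = 0 ∨ j = 4 then 2 else 1 := by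
    intro j
    rw [← SF.fib j]
    apply Finset.card_bij (fun i _ => e i)
    · intro i hi; simpa using hi
    · intro i _ i' _ h; exact e.injective h
    · intro i hi
      exact ⟨e.symm i, by simpa using hi, by simp⟩
  obtain ⟨l, hl, hconv⟩ := exists_g (fun i => SF.p (e i)) hfib
  obtain ⟨hstdconv, hlt, hsurj, a, b, c, d, hab, hcd, h1, h2, h3⟩ := gList_facts l hl
  set s₀ : Setoid (Fin 7) := Setoid.ker (fun i => l.getD (e.symm i) 0) with hs₀
  have hmemT : s₀ ∈ T.partitions := by
    apply mem_of_conv T ST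
    intro a b c d hab hcd h1 h2 h3
    have := conv_of_convB std l hstdconv (e.symm a) (e.symm b) (e.symm c) (e.symm d)
      (fun h => hab (e.symm.injective h)) (fun h => hcd (e.symm.injective h)) h1 h2 h3
    rw [← he, ← he, ← he, ← he] at this
    simpa using this
  have hmemF : s₀ ∈ F.partitions := by
    apply mem_of_conv F SF
    intro a b c d hab hcd h1 h2 h3
    have := conv_of_convB (fun i => SF.p (e i)) l hconv (e.symm a) (e.symm b) (e.symm c)
      (e.symm d) (fun h => hab (e.symm.injective h)) (fun h => hcd (e.symm.injective h)) h1 h2 h3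
    simpa using this
  have hcard : Nat.card (Quotient s₀) = 4 := by
    rw [Nat.card_congr (Setoid.quotientKerEquivRange _)]
    have : Set.range (fun i : Fin 7 => l.getD (e.symm i) 0) = ↑(Finset.range 4) := by
      ext x
      simp only [Set.mem_range, Finset.coe_range, Set.mem_Iio]
      constructor
      · rintro ⟨i, rfl⟩; exact hlt _
      · intro hx
        obtain ⟨i, hi⟩ := hsurj ⟨x, hx⟩
        exact ⟨e i, by simpa using hi⟩
    rw [Nat.card_coe_set_eq, this, Set.ncard_coe_finset, Finset.card_range]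
  have hnot : s₀ ∉ triv '' {S : Finset (Fin 7) | S.card = 3} := by
    rintro ⟨S, _, hS⟩
    have e1 : triv S (e a) (e b) := by
      rw [hS]; change l.getD (e.symm (e a)) 0 = l.getD (e.symm (e b)) 0; simpa using h1
    have e2 : triv S (e c) (e d) := by
      rw [hS]; change l.getD (e.symm (e c)) 0 = l.getD (e.symm (e d)) 0; simpa using h2
    have e3 : ¬ triv S (e a) (e c) := by
      rw [hS]; change ¬ l.getD (e.symm (e a)) 0 = l.getD (e.symm (e c)) 0; simpa using h3
    rw [triv_iff] at e1 e2 e3
    apply e3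
    right
    exact ⟨(e1.resolve_left (fun h => hab (e.injective h))).1,
      (e2.resolve_left (fun h => hcd (e.injective h))).1⟩
  have hsub : insert s₀ (triv '' {S : Finset (Fin 7) | S.card = 3}) ⊆
      T.partitions ∩ F.partitions ∩ kPartitions 7 4 := by
    intro s hs
    rcases hs with rfl | ⟨S, hS, rfl⟩
    · exact ⟨⟨hmemT, hmemF⟩, hcard⟩
    · refine ⟨⟨mem_of_conv T ST _ (conv_triv _ _), mem_of_conv F SF _ (conv_triv _ _)⟩, ?_⟩
      have hS3 : S.card = 3 := hS
      have : Nat.card (Quotient (triv S)) = 4 := by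
        rw [card_quot_triv, hS3]
        rintro rfl
        simp at hS3
      exact this
  have := Set.ncard_le_ncard hsub (Set.toFinite _)
  rw [Set.ncard_insert_of_notMem hnot (Set.toFinite _), ncard_triv] at this
  exact this

/-! ### An explicit pair of trees -/

/-- Adjacency from an edge list on twelve vertices. -/
def gr (E : List (Fin 12 × Fin 12)) : SimpleGraph (Fin 12) where
  Adj u v := u ≠ v ∧ ((u, v) ∈ E ∨ (v, u) ∈ E)
  symm := ⟨fun _ _ h => ⟨h.1.symm, h.2.symm⟩⟩
  loopless := ⟨fun _ h => h.1 rfl⟩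

instance (E : List (Fin 12 × Fin 12)) : DecidableRel (gr E).Adj := fun u v =>
  inferInstanceAs (Decidable (u ≠ v ∧ ((u, v) ∈ E ∨ (v, u) ∈ E)))

/-- The leaf labelling `i ↦ i`. -/
def lf (i : Fin 7) : Fin 12 := ⟨i, by omega⟩

/-- A PhyloTree from an edge list. -/
def mkTree (E : List (Fin 12 × Fin 12)) (par : Fin 12 → Fin 12) (r : Fin 12)
    (hpar : ∀ v, v ≠ r → (gr E).Adj v (par v)) (ht : ∀ v, par^[5] v = r) (hr : par r = r)
    (hcard : (gr E).edgeFinset.card = 11)
    (hdeg : ∀ v : Fin 12, (Finset.univ.filter (fun u => (gr E).Adj v u)).card =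
      if (v : ℕ) < 7 then 1 else 3) : PhyloTree 7 where
  V := Fin 12
  finite := inferInstance
  G := gr E
  isTree := by
    rw [isTree_iff_connected_and_card]
    constructor
    · have key : ∀ v, (gr E).Reachable v r := by
        intro v
        have : ∀ m v, (gr E).Reachable v (par^[m] v) := by
          intro m
          induction m with
          | zero => intro v; exact Reachable.refl _
          | succ m ih =>
            intro v
            rw [Function.iterate_succ_apply]
            by_cases hv : v = r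
            · rw [hv, hr]; exact ih r
            · exact (Adj.reachable (hpar v hv)).trans (ih _)
        have := this 5 v
        rwa [ht] at this
      exact { preconnected := fun u v => (key u).trans (key v).symm
              nonempty := ⟨0⟩ }
    · rw [Nat.card_eq_fintype_card, Nat.card_eq_fintype_card, ← edgeFinset_card, hcard]
      simp
  degree_eq v := by
    have : ((gr E).neighborSet v).ncard =
        (Finset.univ.filter (fun u => (gr E).Adj v u)).card := by
      rw [← Set.ncard_coe_finset]; congr 1; ext u; simp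
    rw [this, hdeg]
    split_ifs <;> simp
  leaf := lf
  leaf_injective := by
    intro i j h
    simpa [lf, Fin.ext_iff] using h
  range_leaf := by
    ext v
    have : ((gr E).neighborSet v).ncard =
        (Finset.univ.filter (fun u => (gr E).Adj v u)).card := by
      rw [← Set.ncard_coe_finset]; congr 1; ext u; simp
    simp only [Set.mem_range, Set.mem_ofPred_eq]
    rw [this, hdeg]
    constructor
    · rintro ⟨i, rfl⟩
      have : ((lf i : Fin 12) : ℕ) < 7 := i.2
      simp [this]
    · intro h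
      by_cases hv : (v : ℕ) < 7
      · exact ⟨⟨v, hv⟩, rfl⟩
      · simp [hv] at h

/-- Edges of the caterpillar `(0,1),2,3,4,(5,6)`. -/
def ET : List (Fin 12 × Fin 12) :=
  [(0,7),(1,7),(2,8),(3,9),(4,10),(5,11),(6,11),(7,8),(8,9),(9,10),(10,11)]

/-- Edges of the tree `((0,4),(2,6),(3,(1,5)))`. -/
def EF : List (Fin 12 × Fin 12) :=
  [(0,7),(4,7),(2,8),(6,8),(1,9),(5,9),(3,10),(9,10),(7,11),(8,11),(10,11)]

/-- The caterpillar. -/
def T₀ : PhyloTree 7 := mkTree ET ![7, 7, 8, 9, 10, 11, 11, 8, 9, 9, 9, 10] 9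
  (by decide +kernel) (by decide +kernel) (by decide +kernel) (by decide +kernel)
  (by decide +kernel)

/-- The other tree. -/
def F₀ : PhyloTree 7 := mkTree EF ![7, 9, 8, 10, 7, 9, 8, 11, 11, 10, 11, 11] 11
  (by decide +kernel) (by decide +kernel) (by decide +kernel) (by decide +kernel)
  (by decide +kernel)

/-- Branch of each vertex at the internal vertices of the caterpillar. -/
def brT : Fin 5 → Fin 12 → ℕ :=
  ![![0, 1, 2, 2, 2, 2, 2, 0, 2, 2, 2, 2], ![1, 1, 0, 2, 2, 2, 2, 1, 0, 2, 2, 2],
    ![1, 1, 1, 0, 2, 2, 2, 1, 1, 0, 2, 2], ![1, 1, 1, 1, 0, 2, 2, 1, 1, 1, 0, 2],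
    ![2, 2, 2, 2, 2, 0, 1, 2, 2, 2, 2, 0]]

/-- Branch of each vertex at the internal vertices of the other tree. -/
def brF : Fin 5 → Fin 12 → ℕ :=
  ![![0, 2, 2, 2, 1, 2, 2, 0, 2, 2, 2, 2], ![2, 2, 0, 2, 2, 2, 1, 2, 0, 2, 2, 2],
    ![2, 0, 2, 2, 2, 1, 2, 2, 2, 0, 2, 2], ![2, 1, 2, 0, 2, 1, 2, 2, 2, 1, 0, 2],
    ![0, 2, 1, 2, 0, 2, 1, 0, 1, 2, 2, 0]]

/-- The internal vertex with a given index. -/
def iv (x : Fin 5) : Fin 12 := ⟨7 + x, by omega⟩

theorem brT_ok : ∀ x : Fin 5, ∀ u v : Fin 12, u ≠ iv x → v ≠ iv x → (gr ET).Adj u v →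
    brT x u = brT x v := by decide +kernel

theorem brF_ok : ∀ x : Fin 5, ∀ u v : Fin 12, u ≠ iv x → v ≠ iv x → (gr EF).Adj u v →
    brF x u = brF x v := by decide +kernel

/-- Necessary condition for membership in the set of partitions of an explicit tree. -/
lemma link {E : List (Fin 12 × Fin 12)} {x : Fin 12} (br : Fin 12 → ℕ)
    (hbr : ∀ u v : Fin 12, u ≠ x → v ≠ x → (gr E).Adj u v → br u = br v)
    (D : Set (Sym2 (Fin 12))) {a b c d : Fin 12}
    (hab : ((gr E).deleteEdges D).Reachable a b) (hcd : ((gr E).deleteEdges D).Reachable c d)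
    (h1 : br a ≠ br b) (h2 : br c ≠ br d) : ((gr E).deleteEdges D).Reachable a c := by
  have hbr' : ∀ u v : Fin 12, u ≠ x → v ≠ x → ((gr E).deleteEdges D).Adj u v → br u = br v := by
    intro u v hu hv h
    exact hbr u v hu hv (deleteEdges_adj.1 h).1
  exact (reachable_cut br hbr' hab h1).trans (reachable_cut br hbr' hcd h2).symm

/-- The four quartets displayed by both trees (and their rearrangements). -/
def cq (a b c d : Fin 7) : Bool :=
  [(0,2,3,5),(0,4,5,6),(0,1,2,6),(1,3,4,6)].any fun (q : ℕ × ℕ × ℕ × ℕ) =>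
    let p1 := (Nat.beq a q.1 && Nat.beq b q.2.1) || (Nat.beq b q.1 && Nat.beq a q.2.1)
    let p2 := (Nat.beq c q.2.2.1 && Nat.beq d q.2.2.2) || (Nat.beq d q.2.2.1 && Nat.beq c q.2.2.2)
    let p3 := (Nat.beq c q.1 && Nat.beq d q.2.1) || (Nat.beq d q.1 && Nat.beq c q.2.1)
    let p4 := (Nat.beq a q.2.2.1 && Nat.beq b q.2.2.2) || (Nat.beq b q.2.2.1 && Nat.beq a q.2.2.2)
    (p1 && p2) || (p3 && p4)

theorem cq_check : ∀ a b c d : Fin 7, a ≠ b → c ≠ d → a ≠ c → a ≠ d → b ≠ c → b ≠ d →
    cq a b c d = false →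
    (∃ x : Fin 5, brT x (lf a) ≠ brT x (lf b) ∧ brT x (lf c) ≠ brT x (lf d)) ∨
    (∃ x : Fin 5, brF x (lf a) ≠ brF x (lf b) ∧ brF x (lf c) ≠ brF x (lf d)) := by
  decide +kernel

/-- The properties of the three remaining labels used below. -/
def Ext (a b c d x y z : Fin 7) : Prop :=
  (x ≠ a ∧ y ≠ a ∧ z ≠ a ∧ x ≠ c ∧ y ≠ c ∧ z ≠ c) ∧ (x ≠ y ∧ x ≠ z ∧ y ≠ z) ∧
    (cq a x c d = false ∧ cq a y c d = false ∧ cq a z c d = false) ∧
    (cq a b c x = false ∧ cq a b c y = false ∧ cq a b c z = false) ∧
    (cq a b x y = false ∧ cq a b x z = false ∧ cq a b y z = false)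

instance (a b c d x y z : Fin 7) : Decidable (Ext a b c d x y z) := by
  unfold Ext; infer_instance

theorem cq_extend : ∀ a b c d : Fin 7, cq a b c d = true → ∃ x y z : Fin 7,
    Ext a b c d x y z := by
  decide +kernel

theorem pigeon (p q r s t : Fin 4) (h1 : p ≠ q) (h2 : p ≠ r) (h3 : p ≠ s) (h4 : p ≠ t)
    (h5 : q ≠ r) (h6 : q ≠ s) (h7 : q ≠ t) (h8 : r ≠ s) (h9 : r ≠ t) (h10 : s ≠ t) : False := by
  have := p.2
  have := q.2
  have := r.2
  have := s.2
  have := t.2
  rw [ne_eq, Fin.ext_iff] at h1 h2 h3 h4 h5 h6 h7 h8 h9 h10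
  omega

lemma common_le : common T₀ F₀ 4 ≤ 35 := by
  classical
  rw [← ncard_triv]
  apply Set.ncard_le_ncard _ (Set.toFinite _)
  rintro s ⟨⟨⟨D, _, hD⟩, ⟨D', _, hD'⟩⟩, hs4⟩
  have hs4 : Nat.card (Quotient s) = 4 := hs4
  have hT : ∀ a b, s a b ↔ ((gr ET).deleteEdges D).Reachable (lf a) (lf b) := by
    intro a b; rw [hD]; rfl
  have hF : ∀ a b, s a b ↔ ((gr EF).deleteEdges D').Reachable (lf a) (lf b) := by
    intro a b; rw [hD']; rfl
  have srefl : ∀ a, s a a := s.iseqv.refl
  have ssymm : ∀ {a b}, s a b → s b a := s.iseqv.symm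
  have strans : ∀ {a b c}, s a b → s b c → s a c := s.iseqv.trans
  -- consistency: two distinct non-trivial classes give a common quartet
  have hcq : ∀ a b c d, a ≠ b → c ≠ d → s a b → s c d → ¬ s a c → cq a b c d = true := by
    intro a b c d hab hcd h1 h2 h3
    by_contra hcon
    rw [Bool.not_eq_true] at hcon
    have hac : a ≠ c := by rintro rfl; exact h3 (srefl _)
    have had : a ≠ d := by rintro rfl; exact h3 (ssymm h2)
    have hbc : b ≠ c := by rintro rfl; exact h3 h1
    have hbd : b ≠ d := by rintro rfl; exact h3 (strans h1 (ssymm h2))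
    rcases cq_check a b c d hab hcd hac had hbc hbd hcon with ⟨x, hx1, hx2⟩ | ⟨x, hx1, hx2⟩
    · apply h3
      rw [hT] at h1 h2 ⊢
      exact link (brT x) (brT_ok x) D h1 h2 hx1 hx2
    · apply h3
      rw [hF] at h1 h2 ⊢
      exact link (brF x) (brF_ok x) D' h1 h2 hx1 hx2
  -- hence at most one non-trivial class
  have hone : ∀ a b c d, a ≠ b → c ≠ d → s a b → s c d → s a c := by
    intro a b c d hab hcd h1 h2
    by_contra h3
    obtain ⟨x, y, z, ⟨xa, ya, za, xc, yc, zc⟩, ⟨xy, xz, yz⟩,
      ⟨a1, a2, a3⟩, ⟨b1, b2, b3⟩, ⟨c1, c2, c3⟩⟩ :=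
      cq_extend a b c d (hcq a b c d hab hcd h1 h2 h3)
    have ha : ∀ t, t ≠ a → cq a t c d = false → ¬ s a t := by
      intro t ht hf h
      have := hcq a t c d (Ne.symm ht) hcd h h2 h3
      rw [hf] at this; exact absurd this (by simp)
    have hc : ∀ t, t ≠ c → cq a b c t = false → ¬ s c t := by
      intro t ht hf h
      have := hcq a b c t hab (Ne.symm ht) h1 h h3
      rw [hf] at this; exact absurd this (by simp)
    have hxy : ∀ t u, t ≠ u → ¬ s a t → cq a b t u = false → ¬ s t u := by
      intro t u htu hat hf h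
      have := hcq a b t u hab htu h1 h hat
      rw [hf] at this; exact absurd this (by simp)
    have e : Quotient s ≃ Fin 4 := Finite.equivFinOfCardEq hs4
    have hne : ∀ i j, ¬ s i j → e ⟦i⟧ ≠ e ⟦j⟧ := by
      intro i j hij h
      exact hij (Quotient.exact (e.injective h))
    have nx := ha x xa a1
    have ny := ha y ya a2
    have nz := ha z za a3
    exact pigeon (e ⟦a⟧) (e ⟦c⟧) (e ⟦x⟧) (e ⟦y⟧) (e ⟦z⟧) (hne _ _ h3) (hne _ _ nx)
      (hne _ _ ny) (hne _ _ nz) (hne _ _ (hc x xc b1)) (hne _ _ (hc y yc b2))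
      (hne _ _ (hc z zc b3)) (hne _ _ (hxy x y xy nx c1)) (hne _ _ (hxy x z xz nx c2))
      (hne _ _ (hxy y z yz ny c3))
  set S : Finset (Fin 7) := Finset.univ.filter (fun i => ∀ j, s i j → j = i) with hS
  have hsS : triv S = s := by
    ext i j
    rw [triv_iff]
    constructor
    · rintro (rfl | ⟨hi, hj⟩)
      · exact srefl _
      · simp only [hS, Finset.mem_filter, Finset.mem_univ, true_and, not_forall] at hi hj
        obtain ⟨i', hi', hne⟩ := hi
        obtain ⟨j', hj', hne'⟩ := hj
        exact hone i i' j j' (Ne.symm hne) (Ne.symm hne') hi' hj'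
    · intro h
      by_cases hij : i = j
      · left; exact hij
      · right
        simp only [hS, Finset.mem_filter, Finset.mem_univ, true_and, not_forall]
        exact ⟨⟨j, h, Ne.symm hij⟩, ⟨i, ssymm h, hij⟩⟩
  refine ⟨S, ?_, hsS⟩
  rw [← hsS] at hs4
  by_cases hSu : S = Finset.univ
  · exfalso
    have hbot : Nat.card (Quotient (triv S)) = 7 := by
      have e : Fin 7 ≃ Quotient (triv S) :=
        Equiv.ofBijective (fun i => ⟦i⟧) ⟨by
          intro i j hij
          have := Quotient.exact hij
          have := (triv_iff S i j).1 this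
          rcases this with h | h
          · exact h
          · exact absurd (by rw [hSu]; simp) h.1, Quotient.mk_surjective⟩
      rw [← Nat.card_congr e]; simp
    omega
  · rw [card_quot_triv S hSu] at hs4
    have : S.card = 3 := by omega
    exact this

/-- The internal vertices of the explicit caterpillar form a path. -/
lemma spine_iso :
    Nonempty ((gr ET).induce {v | ((gr ET).neighborSet v).ncard = 3} ≃g pathGraph 5) := by
  have hdeg : ∀ v : Fin 12, (Finset.univ.filter (fun u => (gr ET).Adj v u)).card =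
      if (v : ℕ) < 7 then 1 else 3 := by decide +kernel
  have hn : ∀ v : Fin 12, ((gr ET).neighborSet v).ncard = 3 ↔ 7 ≤ (v : ℕ) := by
    intro v
    have : ((gr ET).neighborSet v).ncard =
        (Finset.univ.filter (fun u => (gr ET).Adj v u)).card := by
      rw [← Set.ncard_coe_finset]; congr 1; ext u; simp
    rw [this, hdeg]
    split_ifs with h
    · simp; omega
    · simp; omega
  have hadj : ∀ i j : Fin 5, (gr ET).Adj (iv i) (iv j) ↔ ((i : ℕ) + 1 = j ∨ (j : ℕ) + 1 = i) := by
    decide +kernel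
  refine ⟨⟨⟨fun v => ⟨(v.1 : ℕ) - 7, ?_⟩, fun j => ⟨iv j, ?_⟩, ?_, ?_⟩, ?_⟩⟩
  · have := v.1.2
    omega
  · change ((gr ET).neighborSet (iv j)).ncard = 3
    rw [hn]; simp [iv]
  · intro v
    have h : 7 ≤ (v.1 : ℕ) := (hn _).1 v.2
    apply Subtype.ext
    apply Fin.ext
    simp only [iv]
    omega
  · intro j
    apply Fin.ext
    simp [iv]
  · intro u v
    have hu : 7 ≤ (u.1 : ℕ) := (hn _).1 u.2
    have hv : 7 ≤ (v.1 : ℕ) := (hn _).1 v.2
    rw [pathGraph_adj]
    change _ ↔ (gr ET).Adj u.1 v.1
    have eu : u.1 = iv ⟨(u.1 : ℕ) - 7, by have := u.1.2; omega⟩ := by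
      apply Fin.ext; simp only [iv]; omega
    have ev : v.1 = iv ⟨(v.1 : ℕ) - 7, by have := v.1.2; omega⟩ := by
      apply Fin.ext; simp only [iv]; omega
    rw [eu, ev, hadj]
    simp [iv]

/-- The explicit caterpillar is a caterpillar. -/
lemma isCaterpillar_T₀ : T₀.IsCaterpillar := Or.inr spine_iso

/-- `s_{7,4} ≤ 35 < 36 ≤ c_{7,4}`: the minimum number of common partitions with four classes over
all pairs of phylogenetic trees of size seven is smaller than the minimum over all pairs of
caterpillars of size seven. -/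
theorem seven_four : sMin 7 4 ≤ 35 ∧ 36 ≤ cMin 7 4 := by
  have h0 : common T₀ F₀ 4 ∈ {m | ∃ T F : PhyloTree 7, m = common T F 4} := ⟨T₀, F₀, rfl⟩
  have h1 : sMin 7 4 ≤ 35 := (Nat.sInf_le h0).trans common_le
  have h2 : 36 ≤ cMin 7 4 := by
    apply le_csInf
    · exact ⟨_, T₀, T₀, isCaterpillar_T₀, isCaterpillar_T₀, rfl⟩
    · rintro m ⟨T, F, hT, hF, rfl⟩
      exact common_ge T F hT hF
  exact ⟨h1, h2⟩

end Pool.Agent.H64.Phylo
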